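import Pool.Agent.helper61.DP.SpecA

namespace DP

theorem PR_tri {R : Set V} {f : V → V → ZMod 2} (hC : Closed R f) {φ : V → ZMod 2} {u v w : V}
    (hu : u ∈ R) (hv : v ∈ R) (hw : w ∈ R) (h1 : Adj u v) (h2 : Adj v w) (h3 : Adj w u)
    (e1 : f u v = φ u + φ v) (e2 : f v w = φ v + φ w) : f u w = φ u + φ w := by
  have h := hC.2 u v w hu hv hw h1 h2 h3
  rw [e1, e2, hC.1 w u] at h
  have hh : ∀ a b c x : ZMod 2, a + b + (b + c) + x = 0 → x = a + c := by decide
  exact hh _ _ _ _ h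

theorem PR_adj (i j i' j' : ℤ) : Adj (i, j) (i', j') ↔
    (i - i' ≤ 1 ∧ i' - i ≤ 1 ∧ j - j' ≤ 1 ∧ j' - j ≤ 1) ∧ ¬ (i = i' ∧ j = j') ∧
      (i = i' ∨ j = j' ∨ (i + j) % 2 = 0) := adj_iff

theorem PR : PR_stmt := by
  intro a b d e f hC
  classical
  set φ : V → ZMod 2 := fun v =>
    (∑ t ∈ Finset.range (v.1 - a).toNat, f (a + t, d) (a + t + 1, d)) +
      ∑ s ∈ Finset.range (v.2 - d).toNat, f (v.1, d + s) (v.1, d + s + 1) with hφ
  have hR : ∀ i j : ℤ, a ≤ i → i ≤ b → d ≤ j → j ≤ e → ((i, j) : V) ∈ rect a b d e :=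
    fun i j h1 h2 h3 h4 => ⟨h1, h2, h3, h4⟩
  have two : ∀ x y z : ZMod 2, x + y + (x + (y + z)) = z := by decide
  have two' : ∀ x y : ZMod 2, x + 0 + (x + y + 0) = y := by decide
  -- vertical edges
  have hvert : ∀ i j : ℤ, d ≤ j → f (i, j) (i, j + 1) = φ (i, j) + φ (i, j + 1) := by
    intro i j hj
    obtain ⟨n, rfl⟩ := Int.le.dest hj
    simp only [hφ]
    have e1 : (d + (n : ℤ) - d).toNat = n := by omega
    have e2 : (d + (n : ℤ) + 1 - d).toNat = n + 1 := by omega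
    rw [e1, e2, Finset.sum_range_succ]
    exact (two _ _ _).symm
  -- horizontal and diagonal edges
  have hh : ∀ (i : ℤ) (n : ℕ), a ≤ i → i + 1 ≤ b → d + n ≤ e →
      f (i, d + n) (i + 1, d + n) = φ (i, d + n) + φ (i + 1, d + n) ∧
      ∀ u ∈ rect a b d e, ∀ v ∈ rect a b d e, u.1 = i → v.1 = i + 1 → Adj u v →
        u.2 ≤ d + n → v.2 ≤ d + n → f u v = φ u + φ v := by
    intro i n hi hi' hn
    induction n with
    | zero =>
      have e0 : f (i, d) (i + 1, d) = φ (i, d) + φ (i + 1, d) := by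
        obtain ⟨m, rfl⟩ := Int.le.dest hi
        simp only [hφ]
        have e1 : (a + (m : ℤ) - a).toNat = m := by omega
        have e2 : (a + (m : ℤ) + 1 - a).toNat = m + 1 := by omega
        rw [e1, e2, Finset.sum_range_succ, sub_self, Int.toNat_zero, Finset.sum_range_zero,
          Finset.sum_range_zero]
        exact (two' _ _).symm
      refine ⟨by simpa using e0, ?_⟩
      rintro ⟨u1, u2⟩ hu ⟨v1, v2⟩ hv h1 h2 huv h3 h4
      simp only at h1 h2 h3 h4
      obtain ⟨hu1, hu2, hu3, hu4⟩ := hu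
      obtain ⟨hv1, hv2, hv3, hv4⟩ := hv
      simp only at hu3 hv3
      have e3 : u2 = d := by push_cast at h3; omega
      have e4 : v2 = d := by push_cast at h4; omega
      subst h1 h2 e3 e4
      exact e0
    | succ n ih =>
      obtain ⟨ih1, ih2⟩ := ih (by push_cast at hn; omega)
      push_cast at hn ⊢
      set j : ℤ := d + n with hj
      have hj' : d + ((n : ℤ) + 1) = j + 1 := by omega
      rw [hj'] at hn ⊢
      have m1 : ((i, j) : V) ∈ rect a b d e := hR _ _ hi (by omega) (by omega) (by omega)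
      have m2 : ((i + 1, j) : V) ∈ rect a b d e := hR _ _ (by omega) hi' (by omega) (by omega)
      have m3 : ((i, j + 1) : V) ∈ rect a b d e := hR _ _ hi (by omega) (by omega) hn
      have m4 : ((i + 1, j + 1) : V) ∈ rect a b d e := hR _ _ (by omega) hi' (by omega) hn
      have v1 := hvert i j (by omega)
      have v2 := hvert (i + 1) j (by omega)
      rcases Int.emod_two_eq_zero_or_one (i + j) with hp | hp
      · -- diagonal from (i, j) to (i + 1, j + 1)
        have d1 : f (i, j) (i + 1, j + 1) = φ (i, j) + φ (i + 1, j + 1) :=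
          PR_tri hC m1 m2 m4 ((PR_adj _ _ _ _).2 (by omega)) ((PR_adj _ _ _ _).2 (by omega))
            ((PR_adj _ _ _ _).2 (by omega)) ih1 v2
        have v1' : f (i, j + 1) (i, j) = φ (i, j + 1) + φ (i, j) := by
          rw [hC.1, v1, add_comm]
        have h1 : f (i, j + 1) (i + 1, j + 1) = φ (i, j + 1) + φ (i + 1, j + 1) :=
          PR_tri hC m3 m1 m4 ((PR_adj _ _ _ _).2 (by omega)) ((PR_adj _ _ _ _).2 (by omega))
            ((PR_adj _ _ _ _).2 (by omega)) v1' d1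
        refine ⟨h1, ?_⟩
        rintro ⟨u1, u2⟩ hu ⟨w1, w2⟩ hw e1 e2 huw e3 e4
        simp only at e1 e2 e3 e4
        by_cases hlow : u2 ≤ j ∧ w2 ≤ j
        · exact ih2 _ hu _ hw e1 e2 huw hlow.1 hlow.2
        · rw [PR_adj] at huw
          subst e1 e2
          have hcase : (u2 = j + 1 ∧ w2 = j + 1) ∨ (u2 = j ∧ w2 = j + 1) := by omega
          rcases hcase with ⟨rfl, rfl⟩ | ⟨rfl, rfl⟩
          · exact h1
          · exact d1
      · have d1 : f (i, j + 1) (i + 1, j) = φ (i, j + 1) + φ (i + 1, j) := by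
          have v1' : f (i, j + 1) (i, j) = φ (i, j + 1) + φ (i, j) := by
            rw [hC.1, v1, add_comm]
          exact PR_tri hC m3 m1 m2 ((PR_adj _ _ _ _).2 (by omega)) ((PR_adj _ _ _ _).2 (by omega))
            ((PR_adj _ _ _ _).2 (by omega)) v1' ih1
        have h1 : f (i, j + 1) (i + 1, j + 1) = φ (i, j + 1) + φ (i + 1, j + 1) :=
          PR_tri hC m3 m2 m4 ((PR_adj _ _ _ _).2 (by omega)) ((PR_adj _ _ _ _).2 (by omega))
            ((PR_adj _ _ _ _).2 (by omega)) d1 v2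
        refine ⟨h1, ?_⟩
        rintro ⟨u1, u2⟩ hu ⟨w1, w2⟩ hw e1 e2 huw e3 e4
        simp only at e1 e2 e3 e4
        by_cases hlow : u2 ≤ j ∧ w2 ≤ j
        · exact ih2 _ hu _ hw e1 e2 huw hlow.1 hlow.2
        · rw [PR_adj] at huw
          subst e1 e2
          have hcase : (u2 = j + 1 ∧ w2 = j + 1) ∨ (u2 = j + 1 ∧ w2 = j) := by omega
          rcases hcase with ⟨rfl, rfl⟩ | ⟨rfl, rfl⟩
          · exact h1
          · exact d1
  have hright : ∀ u ∈ rect a b d e, ∀ v ∈ rect a b d e, v.1 = u.1 + 1 → Adj u v →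
      f u v = φ u + φ v := by
    rintro u hu v hv h1 huv
    obtain ⟨hu1, hu2, hu3, hu4⟩ := hu
    obtain ⟨hv1, hv2, hv3, hv4⟩ := hv
    obtain ⟨n, hn⟩ := Int.le.dest (hu3.trans hu4)
    exact (hh u.1 n hu1 (by omega) (by omega)).2 u ⟨hu1, hu2, hu3, hu4⟩ v ⟨hv1, hv2, hv3, hv4⟩
      rfl h1 huv (by omega) (by omega)
  refine ⟨φ, fun u hu v hv huv => ?_⟩
  have h1 := adj_iff.1 huv
  have hcases : (v.1 = u.1 + 1) ∨ (u.1 = v.1 + 1) ∨ (u.1 = v.1 ∧ v.2 = u.2 + 1) ∨
      (u.1 = v.1 ∧ u.2 = v.2 + 1) := by omega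
  rcases hcases with h | h | ⟨h, h'⟩ | ⟨h, h'⟩
  · exact hright u hu v hv h huv
  · rw [hC.1, add_comm]
    exact hright v hv u hu h huv.symm
  · have h2 := hvert u.1 u.2 hu.2.2.1
    have e1 : v = (u.1, u.2 + 1) := Prod.ext h.symm h'
    rw [e1]
    exact h2
  · have h2 := hvert v.1 v.2 hv.2.2.1
    have e1 : u = (v.1, v.2 + 1) := Prod.ext h h'
    rw [hC.1, add_comm, e1]
    exact h2

end DP
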