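import Pool.Agent.helper61.DP.SpecC

namespace DP

theorem RR2_cluster {W : Set V} {u v : V} (h : Con W u v) : Con {z | Con W u z} u v := by
  refine Con.induct h (fun a => Con {z | Con W u z} u a) (Con.refl (Con.refl h.1)) ?_
  intro a b _ hb hab ha h1
  exact h1.tail hab (ha.tail hab hb)

theorem RR2_rf_rf (h : ℤ) (v : V) : rf h (rf h v) = v := by
  unfold rf
  ext
  · rfl
  · simp

theorem RR2_rf_adj (h : ℤ) {u v : V} (ha : Adj u v) : Adj (rf h u) (rf h v) := by
  rw [adj_iff] at ha ⊢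
  unfold rf
  simp only
  omega

theorem RR2_rf_con (h : ℤ) {W : Set V} {u v : V} (hc : Con W u v) :
    Con {z | rf h z ∈ W} (rf h u) (rf h v) := by
  have h0 : ∀ z ∈ W, rf h z ∈ {z | rf h z ∈ W} := by
    intro z hz
    show rf h (rf h z) ∈ W
    rw [RR2_rf_rf]
    exact hz
  refine Con.induct hc (fun a => Con {z | rf h z ∈ W} (rf h u) (rf h a)) (Con.refl (h0 _ hc.1)) ?_
  intro a b _ hb hab _ h1
  exact h1.tail (RR2_rf_adj h hab) (h0 _ hb)

theorem RR2 (hRC : RC_stmt) (h5 : RR5_stmt) : RR2_stmt := by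
  intro c a b h ha hab hh hv hF
  obtain ⟨u, t, hu, ht, hut⟩ := h5 c a h ha hh hv
  set W₁ : Set V := {z | Conn c true (RV c a h) u z} with hW₁
  have hW₁sub : ∀ z ∈ W₁, z ∈ rect 0 a 0 h ∧ c z = true := fun z hz =>
    ⟨(Conn.mem_right hz).1, Conn.colour_right hz⟩
  have hcl : Con W₁ u t := RR2_cluster hut
  have hrf : Con {z | rf h z ∈ W₁} (rf h u) (rf h t) := RR2_rf_con h hcl
  have hrt : rf h t = t := by
    unfold rf
    ext
    · rfl
    · simp only [ht]; ring
  set W₂ : Set V := W₁ ∪ {z | rf h z ∈ W₁} with hW₂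
  have hvert : Con W₂ u (rf h u) :=
    (hcl.mono fun z hz => Or.inl hz).trans
      ((hrt ▸ hrf.symm).mono fun z hz => Or.inr hz)
  have hru : (rf h u).2 = 2 * h := by
    unfold rf
    simp only [hu]; ring
  have hW₂sub : W₂ ⊆ rect 0 b 0 (2 * h) := by
    rintro z (hz | hz)
    · obtain ⟨⟨h1, h2, h3, h4⟩, -⟩ := hW₁sub z hz
      exact ⟨h1, h2.trans hab, h3, by omega⟩
    · obtain ⟨⟨h1, h2, h3, h4⟩, -⟩ := hW₁sub _ hz
      unfold rf at h1 h2 h3 h4
      simp only at h1 h2 h3 h4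
      exact ⟨h1, h2.trans hab, by omega, by omega⟩
  -- a connection from the left side to `v`
  obtain ⟨v, hvX, hvF⟩ := hF
  have hvR : v ∈ rect 0 a 0 h := hvX.1
  set WLs : Set V := WL c a h with hWL
  have hWLsub : ∀ z ∈ WLs, z ∈ rect 0 a 0 h ∧ c z = false := by
    rintro z ⟨p, _, hz⟩
    exact ⟨Conn.mem_right hz, Conn.colour_right hz⟩
  have hleft : ∃ p : V, p.1 = 0 ∧ Con (WLs ∪ {v}) p v := by
    rcases hvX.2 with h0 | h0 | ⟨w, hw, hwv⟩
    · exact ⟨v, h0, Con.refl (Or.inr rfl)⟩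
    · obtain ⟨p, hp, hpv⟩ := h0
      refine ⟨p, hp, (RR2_cluster hpv).mono ?_⟩
      intro z hz
      exact Or.inl ⟨p, hp, hz⟩
    · obtain ⟨p, hp, hpw⟩ := hw
      refine ⟨p, hp, (Con.mono ?_ (RR2_cluster hpw)).tail hwv (Or.inr rfl)⟩
      intro z hz
      exact Or.inl ⟨p, hp, hz⟩
  obtain ⟨p, hp, hpv⟩ := hleft
  -- points of the white part and of `v` on the vertical set
  have hwhite : ∀ z ∈ WLs, z ∉ W₂ := by
    rintro z hz (h1 | h1)
    · have e1 := (hWLsub z hz).2
      have e2 := (hW₁sub z h1).2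
      rw [e1] at e2
      exact absurd e2 (by simp)
    · obtain ⟨⟨_, _, _, b4⟩, e1⟩ := hWLsub z hz
      obtain ⟨⟨_, _, _, c4⟩, e2⟩ := hW₁sub _ h1
      have e3 : rf h z = z := by
        unfold rf at c4 ⊢
        simp only at c4
        ext
        · rfl
        · simp only; omega
      rw [e3, e1] at e2
      exact absurd e2 (by simp)
  have hvW : v ∈ W₂ → v ∈ W₁ := by
    rintro (h1 | h1)
    · exact h1
    · obtain ⟨⟨_, _, _, c4⟩, _⟩ := hW₁sub _ h1
      have e3 : rf h v = v := by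
        have b4 := hvR.2.2.2
        unfold rf at c4 ⊢
        simp only at c4
        ext
        · rfl
        · simp only; omega
      have h2 : rf h v ∈ W₁ := h1
      rwa [e3] at h2
  have hmonoR : ∀ z, z ∈ rect 0 a 0 h → z ∈ rect 0 b 0 (2 * h) := by
    rintro z ⟨h1, h2, h3, h4⟩
    exact ⟨h1, h2.trans hab, h3, by omega⟩
  have hub : ∀ z, z ∈ W₁ → Conn c true (rect 0 b 0 (2 * h)) u z := fun z hz =>
    Conn.mono (fun w hw => hmonoR w hw.1) hz
  have hut' : Conn c true (rect 0 a 0 h) u t := Conn.mono (fun w hw => hw.1) hut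
  rcases hvF with hvb | ⟨w, y, hvw, hy, hwy⟩
  · -- `v` is on the right side
    obtain ⟨z, hz1, hz2⟩ := hRC 0 b 0 (2 * h) (WLs ∪ {v}) W₂ (by
        rintro z (hz | hz)
        · exact hmonoR z (hWLsub z hz).1
        · rw [Set.mem_singleton_iff.1 hz]; exact hmonoR v hvR) hW₂sub p v u (rf h u) hp hvb hu hru
      hpv hvert
    have hzv : z = v := by
      rcases hz1 with hz1 | hz1
      · exact absurd hz2 (hwhite z hz1)
      · exact hz1
    rw [hzv] at hz2
    exact ⟨u, t, v, hu, ht, hvb, hut', hub v (hvW hz2)⟩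
  · set Wo : Set V := {z | z ∈ {z | z ∈ rect 0 b 0 (2 * h) ∧ z ∉ RV c a h ∧ rf h z ∉ RV c a h} ∧
      c z = true} with hWo
    have hwy' : Con Wo w y := hwy
    obtain ⟨z, hz1, hz2⟩ := hRC 0 b 0 (2 * h) ((WLs ∪ {v}) ∪ Wo) W₂ (by
        rintro z ((hz | hz) | hz)
        · exact hmonoR z (hWLsub z hz).1
        · rw [Set.mem_singleton_iff.1 hz]; exact hmonoR v hvR
        · exact hz.1.1) hW₂sub p y u (rf h u) hp hy hu hru
      (((hpv.mono fun z hz => Or.inl hz).tail hvw (Or.inr hwy'.1)).trans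
        (hwy'.mono fun z hz => Or.inr hz)) hvert
    have hzv : z = v := by
      rcases hz1 with (hz1 | hz1) | hz1
      · exact absurd hz2 (hwhite z hz1)
      · exact hz1
      · exfalso
        rcases hz2 with hz2 | hz2
        · exact hz1.1.2.1 (Conn.mem_right hz2)
        · have hz3 : Conn c true (RV c a h) u (rf h z) := hz2
          exact hz1.1.2.2 (Conn.mem_right hz3)
    rw [hzv] at hz2
    refine ⟨u, t, y, hu, ht, hy, hut', ?_⟩
    have h1 : Conn c true (rect 0 b 0 (2 * h)) w y := Conn.mono (fun z hz => hz.1) hwy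
    exact (Con.tail (hub v (hvW hz2)) hvw h1.1).trans h1

end DP
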