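import Pool.Agent.helper61.DP.SpecA

namespace DP

open Classical in
/-- Crossing indicator of one step. -/
noncomputable def UH_cr (v p q : V) : ℕ :=
  if (p.1 = v.1 ∧ q.1 = v.1 + 1 ∧ v.2 < p.2) ∨ (q.1 = v.1 ∧ p.1 = v.1 + 1 ∧ v.2 < q.2) then 1 else 0

theorem UH_cons (v p q : V) (l : List V) :
    upCross v (p :: q :: l) = UH_cr v p q + upCross v (q :: l) := by
  unfold upCross UH_cr
  simp only [List.tail_cons, List.zip_cons_cons, List.filter_cons]
  by_cases h : (p.1 = v.1 ∧ q.1 = v.1 + 1 ∧ v.2 < p.2) ∨ (q.1 = v.1 ∧ p.1 = v.1 + 1 ∧ v.2 < q.2)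
  · have h' : (decide (p.1 = v.1 ∧ q.1 = v.1 + 1 ∧ v.2 < p.2) ||
        decide (q.1 = v.1 ∧ p.1 = v.1 + 1 ∧ v.2 < q.2)) = true := by
      rw [Bool.or_eq_true, decide_eq_true_iff, decide_eq_true_iff]
      exact h
    rw [if_pos h, if_pos h']
    simp only [List.length_cons]
    omega
  · have h' : ¬ ((decide (p.1 = v.1 ∧ q.1 = v.1 + 1 ∧ v.2 < p.2) ||
        decide (q.1 = v.1 ∧ p.1 = v.1 + 1 ∧ v.2 < q.2)) = true) := by
      rw [Bool.or_eq_true, decide_eq_true_iff, decide_eq_true_iff]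
      exact h
    rw [if_neg h, if_neg h']
    omega

theorem UH_local (p q z z' : V) (hpq : Adj p q) (hz : Adj z z') (h1 : z'.1 = z.1 + 1)
    (a1 : p ≠ z) (a2 : p ≠ z') (a3 : q ≠ z) (a4 : q ≠ z') :
    (UH_cr z p q + UH_cr z' p q + i01 (above z' p) + i01 (above z' q)) % 2 = 0 := by
  rw [adj_iff] at hpq hz
  obtain ⟨p1, p2⟩ := p
  obtain ⟨q1, q2⟩ := q
  obtain ⟨z1, z2⟩ := z
  obtain ⟨w1, w2⟩ := z'
  simp only [ne_eq, Prod.mk.injEq] at *
  unfold UH_cr i01 above
  simp only
  split_ifs <;> omega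

theorem UH : UH_stmt := by
  intro l
  induction l with
  | nil =>
    intro b d z z' h
    simp at h
  | cons p l ih =>
    intro b d z z' hb hd hc hz h1 hzl hz'l
    simp only [List.head?_cons, Option.some.injEq] at hb
    subst hb
    cases l with
    | nil =>
      simp only [List.getLast?_singleton, Option.some.injEq] at hd
      subst hd
      have e : ∀ v : V, upCross v [p] = 0 := fun v => by simp [upCross]
      rw [e, e]
      omega
    | cons q l =>
      rw [List.getLast?_cons_cons] at hd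
      rw [List.isChain_cons_cons] at hc
      simp only [List.mem_cons, not_or] at hzl hz'l
      have h2 := ih q d z z' (by simp) hd hc.2 hz h1 (by simp [hzl]) (by simp [hz'l])
      have h3 := UH_local p q z z' hc.1 hz h1 (Ne.symm hzl.1) (Ne.symm hz'l.1)
        (Ne.symm hzl.2.1) (Ne.symm hz'l.2.1)
      rw [UH_cons, UH_cons]
      omega

end DP
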