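import Pool.Agent.helper3.DP.SpecG1
import Pool.Agent.helper96.DP.Basic

namespace DP

theorem G1D_run_subset {Λ : Finset V} {next : Finset V → (V → Bool) → Finset V}
    (hR : Rule Λ next) (b : V → Bool) (n : ℕ) : run next b n ⊆ Λ := by
  induction n with
  | zero => simp [run]
  | succ n ih =>
    rw [run]
    exact Finset.union_subset ih (((hR _ b).1).trans Finset.sdiff_subset)

theorem G1D_stop {Λ : Finset V} {next : Finset V → (V → Bool) → Finset V}
    (hR : Rule Λ next) (b : V → Bool) : next (run next b Λ.card) b = ∅ := by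
  have key : ∀ n, n ≤ (run next b n).card ∨ next (run next b n) b = ∅ := by
    intro n
    induction n with
    | zero => exact Or.inl (Nat.zero_le _)
    | succ n ih =>
      by_cases h : next (run next b n) b = ∅
      · right
        have e : run next b (n + 1) = run next b n := by rw [run, h, Finset.union_empty]
        rw [e, h]
      · left
        have h1 := ih.resolve_right h
        have hd : Disjoint (run next b n) (next (run next b n) b) :=
          (Finset.disjoint_of_subset_left ((hR _ b).1) Finset.sdiff_disjoint).symm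
        rw [run, Finset.card_union_of_disjoint hd]
        have h2 : 0 < (next (run next b n) b).card :=
          Finset.card_pos.2 (Finset.nonempty_iff_ne_empty.2 h)
        omega
  rcases key Λ.card with h | h
  · have h1 : run next b Λ.card = Λ := Finset.eq_of_subset_of_card_le (G1D_run_subset hR b _) h
    have h2 := (hR (run next b Λ.card) b).1
    rw [h1, Finset.sdiff_self] at h2
    rw [h1]
    exact Finset.subset_empty.1 h2
  · exact h

theorem G1D (hEX : EX_stmt) (hRC : RC_stmt) (hR : G1R_stmt) (hI : G1I_stmt) : G1D_stmt := by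
  intro N b b' hbb
  classical
  set X := run (gnext N) b (DqF N).card with hX
  have hstop : gnext N X b = ∅ := G1D_stop (hR N).1 b
  obtain ⟨hsub, hbl, hwh⟩ := hI N b (DqF N).card
  rw [← hX] at hsub hbl hwh
  have hXD : ∀ v ∈ X, v ∈ Dq N := by
    intro v hv
    have := hsub hv
    simp only [DqF, Finset.mem_product, Finset.mem_Icc] at this
    exact ⟨this.1.1, this.1.2, this.2.1, this.2.2⟩
  have hcol : ∀ v ∈ X, col b v = col b' v := fun v hv => col_congr (hbb v hv)
  have hst : gstop N X b := by
    by_contra hns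
    have hne : (gcand N X b).Nonempty := by
      rcases hEX (col b) (-(4 * N : ℤ)) (4 * N) (-(4 * N : ℤ)) (4 * N) (X : Set V)
        (by omega) (by omega) (fun v hv => hXD v hv) (fun v hv h => hbl v hv h)
        (fun v hv h => hwh v hv h) with h | h | ⟨w, hw, hwX, h1, h2⟩
      · exact absurd (Or.inl h) hns
      · exact absurd (Or.inr h) hns
      · exact ⟨w, hw, fun h => hwX h, h1, h2⟩
    rw [gnext, if_pos ⟨hne, hns⟩] at hstop
    exact absurd hstop (Finset.singleton_ne_empty _)
  rcases hst with ⟨v, hv, hc, hv1⟩ | ⟨v, hv, hc, hv1⟩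
  · -- black crossing
    obtain ⟨u, hu, hcon⟩ := hbl v hv hc
    have h1 : hcross (col b) true (-(4 * N : ℤ)) (4 * N) (-(4 * N : ℤ)) (4 * N) :=
      ⟨u, v, hu, hv1, (hcon.symm).mono fun w hw => hXD w hw⟩
    have h2 : hcross (col b') true (-(4 * N : ℤ)) (4 * N) (-(4 * N : ℤ)) (4 * N) :=
      ⟨u, v, hu, hv1, (((Conn.congr fun w hw => hcol w hw).1 hcon).symm).mono
        fun w hw => hXD w hw⟩
    exact ⟨fun _ => h2, fun _ => h1⟩
  · obtain ⟨u, hu, hcon⟩ := hwh v hv hc
    have hno : ∀ c : V → Bool, (∀ v ∈ X, col b v = c v) →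
        ¬ hcross c true (-(4 * N : ℤ)) (4 * N) (-(4 * N : ℤ)) (4 * N) := by
      rintro c hcc ⟨p, q, hp, hq, hpq⟩
      have hcon' : Conn c false (X : Set V) v u := (Conn.congr fun w hw => hcc w hw).1 hcon
      obtain ⟨z, hz1, hz2⟩ := hRC (-(4 * N : ℤ)) (4 * N) (-(4 * N : ℤ)) (4 * N)
        {w | w ∈ rect (-(4 * N : ℤ)) (4 * N) (-(4 * N : ℤ)) (4 * N) ∧ c w = true}
        {w | w ∈ (X : Set V) ∧ c w = false} (fun w hw => hw.1) (fun w hw => hXD w hw.1)
        p q u v hp hq hu hv1 hpq hcon'.symm
      have e1 := hz1.2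
      have e2 := hz2.2
      rw [e1] at e2
      exact absurd e2 (by simp)
    exact ⟨fun h => absurd h (hno _ fun _ _ => rfl), fun h => absurd h (hno _ hcol)⟩

end DP
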