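import Pool.Agent.helper3.DP.SpecG1
import Pool.Agent.helper96.DP.Basic

namespace DP

theorem G1P_cluster {W : Set V} {u v : V} (h : Con W u v) : Con {z | Con W u z} u v := by
  refine Con.induct h (fun a => Con {z | Con W u z} u a) (Con.refl (Con.refl h.1)) ?_
  intro a b _ hb hab ha h1
  exact h1.tail hab (ha.tail hab hb)

theorem G1P_reach {W W₃ X : Set V} {L : V → Prop} {r u v : V} (h : Con W r u) (hu : L u)
    (hr : r ∉ X) (h3 : ∀ w ∈ W, w ≠ v → w ∈ W₃)
    (hX : ∀ w ∈ W, w ∈ X → ∃ u', L u' ∧ Con W₃ w u') (hno : ∀ u', L u' → ¬ Con W₃ r u') :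
    Con (W \ X) r v := by
  by_contra hcon
  have hmono : ∀ a, Con (W \ X) r a → Con W₃ r a := by
    intro a ha
    refine Con.mono ?_ (G1P_cluster ha)
    intro z hz
    have hz' : Con (W \ X) r z := hz
    refine h3 z (Con.mem_right hz').1 ?_
    rintro rfl
    exact hcon hz'
  have key : Con (W \ X) r u := by
    refine Con.induct h (fun a => Con (W \ X) r a) (Con.refl ⟨h.1, hr⟩) ?_
    intro a b _ hb hab _ h1
    by_cases hbX : b ∈ X
    · exfalso
      obtain ⟨u', hu', hcu⟩ := hX b hb hbX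
      exact hno u' hu' (((hmono a h1).tail hab hcu.1).trans hcu)
    · exact h1.tail hab ⟨hb, hbX⟩
  exact hno u hu (hmono u key)

theorem G1P (hHX : HX_stmt) (hRC : RC_stmt) (hR : G1R_stmt) (hI : G1I_stmt) : G1P_stmt := by
  classical
  intro N b b' n v x m R hv hpiv hm hmR hin
  set X := run (gnext N) b n with hXdef
  obtain ⟨hsub, hbl, hwh⟩ := hI N b n
  rw [← hXdef] at hsub hbl hwh
  have hXD : ∀ v ∈ X, v ∈ Dq N := by
    intro v hv
    have := hsub hv
    simp only [DqF, Finset.mem_product, Finset.mem_Icc] at this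
    exact ⟨this.1.1, this.1.2, this.2.1, this.2.2⟩
  have hcand := (hR N).2.2 X b v hv
  have hvX : v ∉ X := hcand.2.1
  have hns : ¬ gstop N X b := by
    intro h
    rw [gnext, if_neg (fun h' => h'.2 h)] at hv
    simp at hv
  obtain ⟨b₂, b₃, hag, hb₂, hb₃⟩ := hpiv
  have e2 : ∀ w ∈ X, col b₂ w = col b w := by
    intro w hw
    apply col_congr
    rw [(hag w (by rintro rfl; exact hvX hw)).1, glue, if_pos hw]
  have e3 : ∀ w ∈ X, col b₃ w = col b w := by
    intro w hw
    apply col_congr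
    rw [(hag w (by rintro rfl; exact hvX hw)).2, glue, if_pos hw]
  have e2' : ∀ w, w ∉ X → w ≠ v → col b₂ w = col b' w := by
    intro w hw hwv
    apply col_congr
    rw [(hag w (by simpa using hwv)).1, glue, if_neg hw]
  have e3' : ∀ w, w ∉ X → w ≠ v → col b₃ w = col b' w := by
    intro w hw hwv
    apply col_congr
    rw [(hag w (by simpa using hwv)).2, glue, if_neg hw]
  have e23 : ∀ w, w ≠ v → col b₂ w = col b₃ w := by
    intro w hwv
    by_cases hw : w ∈ X
    · rw [e2 w hw, e3 w hw]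
    · rw [e2' w hw hwv, e3' w hw hwv]
  -- final step
  have fin : ∀ (k : Bool) (c : V → Bool) (r : V), R < sd x r →
      (∀ w, w ∉ X → w ≠ v → c w = col b' w) →
      Con ({w | w ∈ Dq N ∧ c w = k} \ (X : Set V)) r v → armA (col b') k (gsl N X) x m R := by
    intro k c r hr hc hcon
    obtain ⟨p, q, hp, hq, hpq, -, -⟩ := Con.cross (x := x) (m := m) (n := R) hcon.symm
      (by omega) hmR (by omega)
    refine ⟨p, hp, q, hq, Con.mono ?_ hpq⟩
    rintro w ⟨⟨⟨hwD, hwc⟩, hwX⟩, hw1, hw2⟩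
    have hwv : w ≠ v := by
      rintro rfl
      omega
    refine ⟨⟨⟨hw1, hw2⟩, ?_⟩, ?_⟩
    · rintro (h | h)
      · exact hwX h
      · have := (hin w hw2).1
        omega
    · rw [← hc w hwX hwv]
      exact hwc
  have hfar : ∀ r : V, ¬ (-(4 * N : ℤ) < r.1 ∧ r.1 < 4 * N ∧ -(4 * N : ℤ) < r.2 ∧ r.2 < 4 * N) →
      R < sd x r := by
    intro r hr
    by_contra hle
    exact hr (hin r (by omega))
  constructor
  · -- black
    obtain ⟨u, r, hu, hr, hcon⟩ := hb₂
    refine fin true (col b₂) r (hfar r (by rintro ⟨-, h, -, -⟩; omega)) e2' ?_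
    refine G1P_reach (L := fun z => z.1 = -(4 * N : ℤ)) (r := r) (u := u)
      (W₃ := {w | w ∈ Dq N ∧ col b₃ w = true}) hcon.symm hu ?_ ?_ ?_ ?_
    · intro hrX
      have h1 : col b₂ r = true := hcon.colour_right
      rw [e2 r hrX] at h1
      exact hns (Or.inl ⟨r, hrX, h1, hr⟩)
    · intro w hw hwv
      exact ⟨hw.1, by rw [← e23 w hwv]; exact hw.2⟩
    · intro w hw hwX
      have h1 : col b w = true := by rw [← e2 w hwX]; exact hw.2
      obtain ⟨u', hu', hc'⟩ := hbl w hwX h1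
      refine ⟨u', hu', Con.mono ?_ hc'⟩
      intro z hz
      exact ⟨hXD z hz.1, by rw [e3 z hz.1]; exact hz.2⟩
    · intro u' hu' hc'
      exact hb₃ ⟨u', r, hu', hr, hc'.symm⟩
  · -- white
    have hvc : vcross (col b₃) false (-(4 * N : ℤ)) (4 * N) (-(4 * N : ℤ)) (4 * N) := by
      rcases hHX (col b₃) true (-(4 * N : ℤ)) (4 * N) (-(4 * N : ℤ)) (4 * N) (by omega)
        (by omega) with h | h
      · exact absurd h hb₃
      · exact h
    obtain ⟨u, r, hu, hr, hcon⟩ := hvc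
    refine fin false (col b₃) r (hfar r (by rintro ⟨-, -, -, h⟩; omega)) e3' ?_
    refine G1P_reach (L := fun z => z.2 = -(4 * N : ℤ)) (r := r) (u := u)
      (W₃ := {w | w ∈ Dq N ∧ col b₂ w = false}) hcon.symm hu ?_ ?_ ?_ ?_
    · intro hrX
      have h1 : col b₃ r = false := hcon.colour_right
      rw [e3 r hrX] at h1
      exact hns (Or.inr ⟨r, hrX, h1, hr⟩)
    · intro w hw hwv
      exact ⟨hw.1, by rw [e23 w hwv]; exact hw.2⟩
    · intro w hw hwX
      have h1 : col b w = false := by rw [← e3 w hwX]; exact hw.2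
      obtain ⟨u', hu', hc'⟩ := hwh w hwX h1
      refine ⟨u', hu', Con.mono ?_ hc'⟩
      intro z hz
      exact ⟨hXD z hz.1, by rw [e2 z hz.1]; exact hz.2⟩
    · intro u' hu' hc'
      obtain ⟨p, q, hp, hq, hpq⟩ := hb₂
      obtain ⟨z, hz1, hz2⟩ := hRC (-(4 * N : ℤ)) (4 * N) (-(4 * N : ℤ)) (4 * N)
        {w | w ∈ rect (-(4 * N : ℤ)) (4 * N) (-(4 * N : ℤ)) (4 * N) ∧ col b₂ w = true}
        {w | w ∈ Dq N ∧ col b₂ w = false} (fun w hw => hw.1) (fun w hw => hw.1)
        p q u' r hp hq hu' hr hpq hc'.symm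
      have a1 := hz1.2
      have a2 := hz2.2
      rw [a1] at a2
      exact absurd a2 (by simp)

end DP
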