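import Pool.Agent.helper3.DP.SpecG1
import Pool.Agent.helper96.DP.Basic

namespace DP

theorem GV1_cluster {W : Set V} {u v : V} (h : Con W u v) : Con {z | Con W u z} u v := by
  refine Con.induct h (fun a => Con {z | Con W u z} u a) (Con.refl (Con.refl h.1)) ?_
  intro a b _ hb hab ha h1
  exact h1.tail hab (ha.tail hab hb)

/-- A connection from `f ≤ α` to `f ≥ β` contains a connection in `α ≤ f ≤ β` from `f = α` to
`f = β`. -/
theorem GV1_cross {W : Set V} {u v : V} (h : Con W u v) (f : V → ℤ)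
    (hf : ∀ a b, Adj a b → f b ≤ f a + 1) {α β : ℤ} (hu : f u ≤ α) (hαβ : α ≤ β)
    (hv : β ≤ f v) :
    ∃ p q, f p = α ∧ f q = β ∧ Con (W ∩ {z | α ≤ f z ∧ f z ≤ β}) p q := by
  have key : (∃ p q, f p = α ∧ f q = β ∧ Con (W ∩ {z | α ≤ f z ∧ f z ≤ β}) p q) ∨
      f v < α ∨ ∃ p, f p = α ∧ Con (W ∩ {z | α ≤ f z ∧ f z ≤ β}) p v := by
    refine Con.induct h (fun a => (∃ p q, f p = α ∧ f q = β ∧
      Con (W ∩ {z | α ≤ f z ∧ f z ≤ β}) p q) ∨
      f a < α ∨ ∃ p, f p = α ∧ Con (W ∩ {z | α ≤ f z ∧ f z ≤ β}) p a) ?_ ?_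
    · rcases lt_or_eq_of_le hu with h1 | h1
      · exact Or.inr (Or.inl h1)
      · exact Or.inr (Or.inr ⟨u, h1, Con.refl ⟨h.1, h1.ge, h1.le.trans hαβ⟩⟩)
    · intro a b ha hb hab _ hP
      rcases hP with h1 | h1 | ⟨p, hp, h1⟩
      · exact Or.inl h1
      · have h2 := hf a b hab
        by_cases h3 : f b < α
        · exact Or.inr (Or.inl h3)
        · have h4 : f b = α := by omega
          exact Or.inr (Or.inr ⟨b, h4, Con.refl ⟨hb, h4.ge, h4.le.trans hαβ⟩⟩)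
      · have h2 := hf a b hab
        have h5 : f a ≤ β := (Con.mem_right h1).2.2
        by_cases h6 : f a = β
        · exact Or.inl ⟨p, a, hp, h6, h1⟩
        · by_cases h3 : f b < α
          · exact Or.inr (Or.inl h3)
          · exact Or.inr (Or.inr ⟨p, hp, h1.tail hab ⟨hb, by omega, by omega⟩⟩)
  rcases key with h1 | h1 | ⟨p, hp, h1⟩
  · exact h1
  · omega
  · exact ⟨p, v, hp, le_antisymm (Con.mem_right h1).2.2 hv, h1⟩

theorem GV1_adj {a b : V} (h : Adj a b) : (b.1 ≤ a.1 + 1 ∧ a.1 ≤ b.1 + 1) ∧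
    b.2 ≤ a.2 + 1 ∧ a.2 ≤ b.2 + 1 := by
  have := h.1
  unfold sd at this
  omega

theorem GV1 (hLH : LH_stmt) : GV1_stmt := by
  intro c ℓ J hℓ hJ hF hc
  have hJ8 : 8 ≤ 2 ^ J := by
    calc 8 = 2 ^ 3 := rfl
      _ ≤ 2 ^ J := Nat.pow_le_pow_right (by norm_num) hJ
  set P : ℕ := 2 ^ J with hP
  set N : ℕ := P * (8 * ℓ) with hN
  have hNZ : ((N : ℕ) : ℤ) = P * (8 * ℓ) := by rw [hN]; push_cast; ring
  -- a product as a variable, for omega
  set q : ℤ := (P : ℤ) * ℓ with hq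
  have hNq : (N : ℤ) = 8 * q := by rw [hNZ, hq]; ring
  have hℓZ : (1 : ℤ) ≤ ℓ := by exact_mod_cast hℓ
  have hPZ : (8 : ℤ) ≤ P := by exact_mod_cast hJ8
  have hq8 : 8 * (ℓ : ℤ) ≤ q := by rw [hq]; nlinarith
  obtain ⟨u, v, hu, hv, hcon⟩ := hc
  set W : Set V := {w | w ∈ rect (-(4 * (N : ℕ) : ℤ)) (4 * (N : ℕ)) (-(4 * (N : ℕ) : ℤ))
    (4 * (N : ℕ)) ∧ c w = true} with hW
  have hcon' : Con W u v := by
    have h0 : Con {w | w ∈ rect (-(4 * ((N : ℕ) : ℤ))) (4 * ((N : ℕ) : ℤ))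
      (-(4 * ((N : ℕ) : ℤ))) (4 * ((N : ℕ) : ℤ)) ∧ c w = true} u v := hcon
    exact h0
  -- the cluster of `u` avoids the cells
  have havoid : ∀ z, Con W u z → (4 * (N : ℤ) - 24 * ℓ < z.1 ∨ z.1 < -(4 * (N : ℤ) - 24 * ℓ)) ∨
      (4 * (N : ℤ) - 24 * ℓ < z.2 ∨ z.2 < -(4 * (N : ℤ) - 24 * ℓ)) := by
    intro z hz
    by_contra hcontra
    push Not at hcontra
    obtain ⟨⟨h1, h2⟩, h3, h4⟩ := hcontra
    -- choose the cell of a coordinate
    have cell : ∀ t : ℤ, t ≤ 4 * (N : ℤ) - 24 * ℓ → -(4 * (N : ℤ) - 24 * ℓ) ≤ t →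
        ∃ g : ℤ, -((16 * P - 10 : ℕ) : ℤ) ≤ g ∧ g ≤ ((16 * P - 10 : ℕ) : ℤ) ∧
          2 * ℓ * g - ℓ ≤ t ∧ t ≤ 2 * ℓ * g + ℓ := by
      intro t ht1 ht2
      have hMZ : ((16 * P - 10 : ℕ) : ℤ) = 16 * P - 10 := by
        rw [Nat.cast_sub (by omega)]; push_cast; ring
      rw [hMZ]
      set g : ℤ := (t + ℓ) / (2 * ℓ) with hg
      have h2ℓ : (0 : ℤ) < 2 * ℓ := by omega
      have e1 : 2 * (ℓ : ℤ) * g + (t + ℓ) % (2 * ℓ) = t + ℓ := by
        rw [hg]; exact Int.mul_ediv_add_emod _ _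
      have e2 := Int.emod_nonneg (t + ℓ) h2ℓ.ne'
      have e3 := Int.emod_lt_of_pos (t + ℓ) h2ℓ
      refine ⟨g, ?_, ?_, by linarith, by linarith⟩
      · -- lower bound
        by_contra hlt
        push Not at hlt
        have h5 : g ≤ -(16 * (P : ℤ) - 10) - 1 := by omega
        have h6 : 2 * (ℓ : ℤ) * g ≤ 2 * ℓ * (-(16 * (P : ℤ) - 10) - 1) :=
          mul_le_mul_of_nonneg_left h5 (by omega)
        have h7 : 2 * (ℓ : ℤ) * (-(16 * (P : ℤ) - 10) - 1) = -32 * q + 18 * ℓ := by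
          rw [hq]; ring
        rw [h7] at h6
        rw [hNq] at ht2
        linarith
      · by_contra hlt
        push Not at hlt
        have h5 : (16 * (P : ℤ) - 10) + 1 ≤ g := by omega
        have h6 : 2 * (ℓ : ℤ) * ((16 * (P : ℤ) - 10) + 1) ≤ 2 * ℓ * g :=
          mul_le_mul_of_nonneg_left h5 (by omega)
        have h7 : 2 * (ℓ : ℤ) * ((16 * (P : ℤ) - 10) + 1) = 32 * q - 18 * ℓ := by
          rw [hq]; ring
        rw [h7] at h6
        rw [hNq] at ht1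
        linarith
    obtain ⟨g1, a1, a2, a3, a4⟩ := cell z.1 h1 h2
    obtain ⟨g2, b1, b2, b3, b4⟩ := cell z.2 h3 h4
    have hmem : ((g1, g2) : ℤ × ℤ) ∈ sqc (16 * P - 10) := by
      simp only [sqc, Finset.mem_product, Finset.mem_Icc]
      exact ⟨⟨a1, a2⟩, b1, b2⟩
    obtain ⟨S, hS⟩ := hF (g1, g2) hmem
    have hMZ : ((16 * P - 10 : ℕ) : ℤ) = 16 * P - 10 := by
      rw [Nat.cast_sub (by omega)]; push_cast; ring
    have hg1 : (((0 : V).1 + 2 * ℓ * g1, (0 : V).2 + 2 * ℓ * g2) : V) =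
        ((2 * ℓ * g1, 2 * ℓ * g2) : V) := by simp
    simp only at hS
    rw [hg1] at hS
    have hbig : 2 * (ℓ : ℤ) * g1 ≥ -32 * q + 20 * ℓ := by
      have h5 : -(16 * (P : ℤ) - 10) ≤ g1 := by rw [← hMZ]; exact a1
      have h6 : 2 * (ℓ : ℤ) * (-(16 * (P : ℤ) - 10)) ≤ 2 * ℓ * g1 :=
        mul_le_mul_of_nonneg_left h5 (by omega)
      have h7 : 2 * (ℓ : ℤ) * (-(16 * (P : ℤ) - 10)) = -32 * q + 20 * ℓ := by rw [hq]; ring
      linarith
    have hnear : sd ((2 * ℓ * g1, 2 * ℓ * g2) : V) z ≤ ℓ := by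
      rw [sd_le_iff]
      refine ⟨⟨?_, ?_⟩, ?_, ?_⟩ <;> simp only <;> linarith
    have hfar : 3 * ℓ ≤ sd ((2 * ℓ * g1, 2 * ℓ * g2) : V) u := by
      have h8 : (3 * (ℓ : ℤ)) ≤ 2 * ℓ * g1 - u.1 := by
        rw [hu, hNq]; linarith
      have h9 : (2 * (ℓ : ℤ) * g1 - u.1).natAbs ≤ sd ((2 * ℓ * g1, 2 * ℓ * g2) : V) u :=
        le_max_left _ _
      omega
    obtain ⟨w, hw, hzw⟩ := hLH c false _ ℓ S hS W z u (hz.symm) hnear hfar
    have hcw : c w = true := (Con.mem_right hzw).2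
    obtain ⟨l, u0, hl, -, hSl⟩ := hS
    rw [hSl] at hw
    have := (hl.2.2.2 w hw).2.2
    rw [hcw] at this
    exact absurd this (by simp)
  -- cut between the columns
  obtain ⟨p, r, hp, hr, hpr⟩ := GV1_cross (GV1_cluster hcon') (fun z => z.1)
    (fun a b hab => (GV1_adj hab).1.1) (α := -(2 * (N : ℤ))) (β := 2 * (N : ℤ))
    (by simp only [hu]; omega) (by omega) (by simp only [hv]; omega)
  set W₂ : Set V := {z | Con W u z} ∩ {z | -(2 * (N : ℤ)) ≤ z.1 ∧ z.1 ≤ 2 * (N : ℤ)} with hW₂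
  have htb : ∀ z ∈ W₂, 4 * (N : ℤ) - 24 * ℓ < z.2 ∨ z.2 < -(4 * (N : ℤ) - 24 * ℓ) := by
    intro z hz
    have h1 := havoid z hz.1
    have h2 := hz.2.1
    have h3 := hz.2.2
    rcases h1 with h1 | h1
    · omega
    · exact h1
  have h24 : (24 * (ℓ : ℤ)) < 4 * N := by omega
  have hrectW : ∀ z ∈ W₂, z ∈ rect (-(4 * (N : ℕ) : ℤ)) (4 * (N : ℕ)) (-(4 * (N : ℕ) : ℤ))
    (4 * (N : ℕ)) ∧ c z = true := fun z hz => Con.mem_right hz.1
  by_cases htop : 4 * (N : ℤ) - 24 * ℓ < p.2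
  · refine ⟨true, p, r, ?_, ?_, ?_⟩
    · rw [hp]
    · rw [hr]
    · have : Con (W₂ ∩ {z | 4 * (N : ℤ) - 24 * ℓ < z.2}) p r := by
        refine Con.induct hpr (fun a => Con (W₂ ∩ {z | 4 * (N : ℤ) - 24 * ℓ < z.2}) p a)
          (Con.refl ⟨hpr.1, htop⟩) ?_
        intro a b ha hb hab _ h1
        refine h1.tail hab ⟨hb, ?_⟩
        have h2 := (Con.mem_right h1).2
        have h3 := (GV1_adj hab).2.2
        have h4 := htb b hb
        simp only [Set.mem_setOf_eq] at h2 ⊢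
        omega
      refine Con.mono ?_ this
      rintro z ⟨hz, hz2⟩
      have h5 := hrectW z hz
      refine ⟨⟨hz.2.1, hz.2.2, ?_⟩, h5.2⟩
      rw [if_pos rfl]
      simp only [Set.mem_setOf_eq] at hz2
      refine ⟨?_, h5.1.2.2.2⟩
      push_cast
      linarith
  · have hbot : p.2 < -(4 * (N : ℤ) - 24 * ℓ) := (htb p hpr.1).resolve_left htop
    refine ⟨false, p, r, ?_, ?_, ?_⟩
    · rw [hp]
    · rw [hr]
    · have : Con (W₂ ∩ {z | z.2 < -(4 * (N : ℤ) - 24 * ℓ)}) p r := by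
        refine Con.induct hpr (fun a => Con (W₂ ∩ {z | z.2 < -(4 * (N : ℤ) - 24 * ℓ)}) p a)
          (Con.refl ⟨hpr.1, hbot⟩) ?_
        intro a b ha hb hab _ h1
        refine h1.tail hab ⟨hb, ?_⟩
        have h2 := (Con.mem_right h1).2
        have h3 := (GV1_adj hab).2.1
        have h4 := htb b hb
        simp only [Set.mem_setOf_eq] at h2 ⊢
        omega
      refine Con.mono ?_ this
      rintro z ⟨hz, hz2⟩
      have h5 := hrectW z hz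
      refine ⟨⟨hz.2.1, hz.2.2, ?_⟩, h5.2⟩
      rw [if_neg (by simp)]
      simp only [Set.mem_setOf_eq] at hz2
      refine ⟨h5.1.2.2.1, ?_⟩
      push_cast
      linarith

end DP
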