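import Pool.Agent.helper95.DP.SpecH

namespace DP

open MeasureTheory ProbabilityTheory Filter Topology

theorem HCN_strict {x : ℕ → ℝ} (h : GoodT x) : StrictMono (rt x) := by
  refine strictMono_nat_of_lt_succ fun n => ?_
  unfold rt
  rw [Finset.sum_range_succ]
  linarith [h.1 n]

theorem HCN_eq {x : ℕ → ℝ} (h : GoodT x) {t : ℝ} {k : ℕ} (h1 : rt x k ≤ t)
    (h2 : t < rt x (k + 1)) : cnt x t = k := by
  have hS : {j : ℕ | ∑ i ∈ Finset.range (j + 1), x i ≤ t} = ((Finset.range k : Finset ℕ) : Set ℕ) := by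
    ext j
    simp only [Set.mem_setOf_eq, Finset.coe_range, Set.mem_Iio]
    constructor
    · intro hj
      by_contra hlt
      push Not at hlt
      have h3 : rt x (k + 1) ≤ rt x (j + 1) := (HCN_strict h).monotone (by omega)
      have h4 : rt x (j + 1) ≤ t := hj
      linarith
    · intro hj
      have h3 : rt x (j + 1) ≤ rt x k := (HCN_strict h).monotone (by omega)
      exact h3.trans h1
  show DynPerc.rings x t = k
  unfold DynPerc.rings
  rw [hS, Set.ncard_coe_finset, Finset.card_range]

theorem HCN : HCN_stmt := by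
  intro x h t ht k
  constructor
  · intro hk
    have hex : ∃ n, t < rt x n := (h.2.eventually_gt_atTop t).exists
    classical
    obtain ⟨n, hn, hmin⟩ : ∃ n, t < rt x n ∧ ∀ m, m < n → rt x m ≤ t :=
      ⟨Nat.find hex, Nat.find_spec hex, fun m hm => not_lt.1 (Nat.find_min hex hm)⟩
    have hn0 : n ≠ 0 := by
      rintro rfl
      have : rt x 0 = 0 := by simp [rt]
      linarith
    obtain ⟨m, rfl⟩ := Nat.exists_eq_succ_of_ne_zero hn0
    have h1 := HCN_eq h (hmin m (Nat.lt_succ_self m)) hn
    rw [h1] at hk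
    subst hk
    exact ⟨hmin m (Nat.lt_succ_self m), hn⟩
  · rintro ⟨h1, h2⟩
    exact HCN_eq h h1 h2

end DP
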