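import Pool.Agent.helper96.DP.SpecF
import Pool.Agent.helper3.DP.SpecG2
import Pool.Agent.helper96.DP.Basic

namespace DP

open MeasureTheory

theorem KEY (h : G4_stmt) : KEY_stmt := by
  obtain ⟨c₁, B, hc₁, hB, k₁, h4⟩ := h
  refine ⟨k₁, fun k hk => ?_⟩
  have hB0 : 0 < B := by linarith
  refine ⟨c₁ * (B ^ k)⁻¹, Real.logb 2 B, k + 8, by positivity,
    Real.logb_pos (by norm_num) hB, fun i hi => ?_⟩
  have h1 := h4 k i hk hi
  have e1 : (2 : ℝ) ^ (Real.logb 2 B * i) = B ^ i := by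
    rw [Real.rpow_mul (by norm_num), Real.rpow_logb (by norm_num) (by norm_num) hB0,
      Real.rpow_natCast]
  have e2 : B ^ i = B ^ k * B ^ (i - k) := by rw [← pow_add]; congr 1; omega
  have e3 : ((2 : ℝ) ^ i) ^ 2 = 4 ^ i := by
    rw [← pow_mul, mul_comm, pow_mul]
    norm_num
  rw [e3] at h1
  rw [e1, e2]
  calc c₁ * (B ^ k)⁻¹ * (B ^ k * B ^ (i - k)) = c₁ * B ^ (i - k) := by field_simp
    _ ≤ 4 ^ i * al k i * be k i := h1

end DP
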