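import Pool.Agent.helper96.DP.SpecF

namespace DP

open MeasureTheory

theorem PSU_nonneg (F : Set (V → Bool)) : 0 ≤ Pr F := measureReal_nonneg

theorem PSU_card (S : Finset V) (n : ℕ) (hn : 1 ≤ n) (h : ∀ v ∈ S, sd 0 v ≤ n) :
    (S.card : ℝ) ≤ 16 * (n : ℝ) ^ 2 := by
  have hsub : S ⊆ (Finset.Icc (-(n : ℤ)) n) ×ˢ (Finset.Icc (-(n : ℤ)) n) := by
    intro v hv
    have h1 := h v hv
    unfold sd at h1
    simp only [Prod.fst_zero, Prod.snd_zero] at h1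
    simp only [Finset.mem_product, Finset.mem_Icc]
    omega
  have h1 := Finset.card_le_card hsub
  rw [Finset.card_product, Int.card_Icc] at h1
  have h2 : ((n : ℤ) + 1 - -(n : ℤ)).toNat = 2 * n + 1 := by omega
  rw [h2] at h1
  have h3 : (S.card : ℝ) ≤ (2 * (n : ℝ) + 1) * (2 * n + 1) := by exact_mod_cast h1
  have h4 : (1 : ℝ) ≤ n := by exact_mod_cast hn
  nlinarith

theorem PSU (h1 : PSV_stmt) (h2 : SUM_stmt) : PSU_stmt := by
  classical
  obtain ⟨k₁, hk₁⟩ := h1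
  obtain ⟨k₂, hk₂⟩ := h2
  refine ⟨max k₁ k₂, fun k hk => ?_⟩
  obtain ⟨C₁, hC₁, hP⟩ := hk₁ k ((le_max_left _ _).trans hk)
  obtain ⟨C₂, hC₂, hS⟩ := hk₂ k ((le_max_right _ _).trans hk)
  refine ⟨16 * ((2 : ℝ) ^ (k + 4)) ^ 2 * C₁ * C₂ + 64 * C₁ * C₂, by positivity, ?_⟩
  intro i hi
  obtain ⟨hs1, hs2⟩ := hS i (by omega)
  have hal0 : ∀ l, 0 ≤ al k l := fun l => PSU_nonneg _
  set S := annN (2 ^ k) (2 ^ (i - 2)) with hSdef
  set f : V → ℝ := fun v => Pr (Piv {v} (Ev fun c => four c 0 (2 ^ k) (2 ^ i))) with hf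
  have hmem : ∀ v ∈ S, 2 ^ k ≤ sd 0 v ∧ sd 0 v ≤ 2 ^ (i - 2) := by
    intro v hv
    simp only [hSdef, annN, Finset.mem_filter, Finset.mem_product, Finset.mem_Icc] at hv
    refine ⟨hv.2, ?_⟩
    obtain ⟨⟨⟨a1, a2⟩, a3, a4⟩, -⟩ := hv
    unfold sd
    simp only [Prod.fst_zero, Prod.snd_zero]
    omega
  -- pointwise bound
  have hpt : ∀ v ∈ S, f v ≤ (if sd 0 v < 2 ^ (k + 4) then C₁ * al k i else 0) +
      ∑ l ∈ Finset.Ioc k i, if 2 ^ l ≤ sd 0 v ∧ sd 0 v < 2 ^ (l + 1) then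
        C₁ * (al k i * al k l) else 0 := by
    intro v hv
    obtain ⟨h3, h4⟩ := hmem v hv
    obtain ⟨h5, h6⟩ := hP i v hi h3 h4
    have hnn : ∀ l ∈ Finset.Ioc k i, 0 ≤ (if 2 ^ l ≤ sd 0 v ∧ sd 0 v < 2 ^ (l + 1) then
        C₁ * (al k i * al k l) else 0) := by
      intro l _
      split_ifs
      · exact mul_nonneg hC₁.le (mul_nonneg (hal0 _) (hal0 _))
      · exact le_rfl
    by_cases hnear : sd 0 v < 2 ^ (k + 4)
    · rw [if_pos hnear]
      have := h5 hnear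
      linarith [Finset.sum_nonneg hnn]
    · rw [if_neg hnear, zero_add]
      push Not at hnear
      have hpos : sd 0 v ≠ 0 := by
        have : 0 < 2 ^ (k + 4) := by positivity
        omega
      set l := Nat.log 2 (sd 0 v) with hl
      have hl1 : 2 ^ l ≤ sd 0 v := Nat.pow_log_le_self 2 hpos
      have hl2 : sd 0 v < 2 ^ (l + 1) := Nat.lt_pow_succ_log_self (by norm_num) _
      have hl3 : k + 4 ≤ l := by
        by_contra hlt
        push Not at hlt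
        have : 2 ^ (l + 1) ≤ 2 ^ (k + 4) := Nat.pow_le_pow_right (by norm_num) (by omega)
        omega
      have hl4 : l ≤ i - 2 := by
        by_contra hlt
        push Not at hlt
        have : 2 ^ (i - 2) < 2 ^ l := Nat.pow_lt_pow_right (by norm_num) hlt
        omega
      have h7 := h6 l hl3 hl1 hl2
      have h8 := Finset.single_le_sum hnn (show l ∈ Finset.Ioc k i by
        rw [Finset.mem_Ioc]; omega)
      rw [if_pos ⟨hl1, hl2⟩] at h8
      exact h7.trans h8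
  have hsum : ∑ v ∈ S, f v ≤ ∑ v ∈ S, ((if sd 0 v < 2 ^ (k + 4) then C₁ * al k i else 0) +
      ∑ l ∈ Finset.Ioc k i, if 2 ^ l ≤ sd 0 v ∧ sd 0 v < 2 ^ (l + 1) then
        C₁ * (al k i * al k l) else 0) := Finset.sum_le_sum hpt
  rw [Finset.sum_add_distrib, Finset.sum_comm] at hsum
  -- near part
  have hA : ∑ v ∈ S, (if sd 0 v < 2 ^ (k + 4) then C₁ * al k i else 0) ≤
      16 * ((2 : ℝ) ^ (k + 4)) ^ 2 * (C₁ * al k i) := by
    rw [← Finset.sum_filter, Finset.sum_const, nsmul_eq_mul]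
    refine mul_le_mul_of_nonneg_right ?_ (mul_nonneg hC₁.le (hal0 _))
    have := PSU_card (S.filter fun v => sd 0 v < 2 ^ (k + 4)) (2 ^ (k + 4)) Nat.one_le_two_pow
      (fun v hv => ((Finset.mem_filter.1 hv).2).le)
    simpa using this
  have hB : ∑ l ∈ Finset.Ioc k i, ∑ v ∈ S, (if 2 ^ l ≤ sd 0 v ∧ sd 0 v < 2 ^ (l + 1) then
      C₁ * (al k i * al k l) else 0) ≤ 64 * C₁ * al k i * ∑ l ∈ Finset.Ioc k i, 4 ^ l * al k l := by
    rw [Finset.mul_sum]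
    refine Finset.sum_le_sum fun l _ => ?_
    rw [← Finset.sum_filter, Finset.sum_const, nsmul_eq_mul]
    have h3 := PSU_card (S.filter fun v => 2 ^ l ≤ sd 0 v ∧ sd 0 v < 2 ^ (l + 1)) (2 ^ (l + 1))
      Nat.one_le_two_pow (fun v hv => ((Finset.mem_filter.1 hv).2).2.le)
    have h4 : 0 ≤ C₁ * (al k i * al k l) := mul_nonneg hC₁.le (mul_nonneg (hal0 _) (hal0 _))
    refine (mul_le_mul_of_nonneg_right h3 h4).trans (le_of_eq ?_)
    have h5 : (((2 ^ (l + 1) : ℕ) : ℝ)) ^ 2 = 4 * 4 ^ l := by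
      push_cast
      rw [← pow_mul, pow_mul', pow_succ]
      norm_num
      ring
    rw [h5]
    ring
  have hC : al k i ≤ al k i * (C₂ * (4 ^ i * al k i)) := le_mul_of_one_le_right (hal0 _) hs2
  have hD : 16 * ((2 : ℝ) ^ (k + 4)) ^ 2 * (C₁ * al k i) ≤
      16 * ((2 : ℝ) ^ (k + 4)) ^ 2 * (C₁ * (al k i * (C₂ * (4 ^ i * al k i)))) := by
    gcongr
  have hE : 64 * C₁ * al k i * ∑ l ∈ Finset.Ioc k i, (4 : ℝ) ^ l * al k l ≤
      64 * C₁ * al k i * (C₂ * (4 ^ i * al k i)) :=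
    mul_le_mul_of_nonneg_left hs1 (mul_nonneg (by positivity) (hal0 _))
  calc ∑ v ∈ S, f v ≤ _ := hsum
    _ ≤ 16 * ((2 : ℝ) ^ (k + 4)) ^ 2 * (C₁ * (al k i * (C₂ * (4 ^ i * al k i)))) +
        64 * C₁ * al k i * (C₂ * (4 ^ i * al k i)) := by linarith
    _ = _ := by ring

end DP
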