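import Pool.Agent.helper96.DP.SpecF
import Pool.Agent.helper96.DP.Basic

namespace DP

open MeasureTheory

theorem QZ_loc (hG : GLA_stmt) (j : ℕ) (x : V) (m n : ℕ) :
    Loc (Ev fun c => ar j c x m n) (ann x m n) := by
  by_cases hj : j = 4
  · have e : (Ev fun c => ar j c x m n) = Ev fun c => four c x m n := by
      ext b
      show ar j (col b) x m n ↔ four (col b) x m n
      unfold ar
      rw [if_pos hj]
    rw [e]
    exact (hG x m n).2.1
  · have e : (Ev fun c => ar j c x m n) = Ev fun c => two c x m n := by
      ext b
      show ar j (col b) x m n ↔ two (col b) x m n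
      unfold ar
      rw [if_neg hj]
    rw [e]
    have h := ((hG x m n).1 true).inter ((hG x m n).1 false)
    rw [Set.union_self] at h
    exact h

theorem QZ (hZ : Bzero_stmt) (hG : GLA_stmt) : QZ_stmt := by
  intro j x m n
  have h := QZ_loc hG j x m n
  unfold qa
  rw [hZ (fun _ => 0) _ _ _ h h fun _ _ => rfl, Set.inter_self]

end DP
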