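import Pool.Agent.helper96.DP.SpecF
import Pool.Agent.helper96.DP.Basic

namespace DP

open MeasureTheory

theorem SM1_nonneg (F : Set (V → Bool)) : 0 ≤ Pr F := measureReal_nonneg

theorem SM1_Qnonneg (ρ : V → ℝ) (F G : Set (V → Bool)) : 0 ≤ Q ρ F G := measureReal_nonneg

theorem SM1_two_loc (hG : GLA_stmt) (x : V) (m n : ℕ) :
    Loc (Ev fun c => two c x m n) (ann x m n) := by
  have h := ((hG x m n).1 true).inter ((hG x m n).1 false)
  rw [Set.union_self] at h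
  exact h

theorem SM1_ar (c : V → Bool) (x : V) (m n : ℕ) : ar 2 c x m n ↔ two c x m n := by
  unfold ar
  rw [if_neg (by norm_num)]

theorem SM1_two_mono (hAM : AM_stmt) {x : V} {m m' n' n : ℕ} (h1 : m ≤ m') (h2 : m' ≤ n')
    (h3 : n' ≤ n) : (Ev fun c => two c x m n) ⊆ Ev fun c => two c x m' n' := by
  intro b hb
  have hb' : two (col b) x m n := hb
  exact (SM1_ar (col b) x m' n').1
    (hAM (col b) 2 x m m' n' n (Or.inl rfl) h1 h2 h3 ((SM1_ar (col b) x m n).2 hb'))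

theorem SM1_qa (hQZ : QZ_stmt) (x : V) (m n : ℕ) :
    Pr (Ev fun c => two c x m n) = qa (fun _ => 0) 2 x m n := by
  rw [← hQZ 2 x m n]
  congr 1

theorem SM1_trivial (hMono : Bmono_stmt) (hMg : Bmarg_stmt) (hG : GLA_stmt) (ρ : V → ℝ) (x : V)
    (m n : ℕ) : Q ρ (Ev fun c => two c x m n) (Ev fun c => two c x m n) ≤
      Pr (Ev fun c => two c x m n) := by
  rw [← hMg ρ (Ev fun c => two c x m n) (ann x m n) (SM1_two_loc hG x m n)]
  exact hMono ρ _ _ _ _ subset_rfl (Set.subset_univ _)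

/-- Full noise outside a box. -/
theorem SM1_full (hMono : Bmono_stmt) (hMg : Bmarg_stmt) (hOne : Bone_stmt) (hInd : Bindep_stmt)
    (hG : GLA_stmt) (hAM : AM_stmt) (ρ : V → ℝ) (m r n : ℕ) (h1 : m ≤ r) (h2 : r + 1 ≤ n)
    {r' : ℕ} (h3 : r < r') (h4 : r' ≤ n) (hρ : ∀ v, r < sd 0 v → ρ v = 1) :
    Q ρ (Ev fun c => two c 0 m n) (Ev fun c => two c 0 m n) ≤
      Pr (Ev fun c => two c 0 m r) * Pr (Ev fun c => two c 0 r' n) ^ 2 := by
  set A₁ : Set (V → Bool) := Ev fun c => two c 0 m r with hA₁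
  set B₁ : Set (V → Bool) := Ev fun c => two c 0 r' n with hB₁
  have hlA : Loc A₁ (ann 0 m r) := SM1_two_loc hG 0 m r
  have hlB : Loc B₁ (ann 0 r' n) := SM1_two_loc hG 0 r' n
  have hdis : Disjoint (ann 0 m r) (ann 0 r' n) := by
    rw [Set.disjoint_left]
    intro v hv hv'
    have e1 := hv.2
    have e2 := hv'.1
    omega
  have hsub : (Ev fun c => two c 0 m n) ⊆ A₁ ∩ B₁ := fun b hb =>
    ⟨SM1_two_mono hAM le_rfl h1 (by omega) hb, SM1_two_mono hAM (by omega) h4 le_rfl hb⟩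
  calc Q ρ (Ev fun c => two c 0 m n) (Ev fun c => two c 0 m n)
      ≤ Q ρ (A₁ ∩ B₁) (A₁ ∩ B₁) := hMono ρ _ _ _ _ hsub hsub
    _ = Q ρ A₁ A₁ * Q ρ B₁ B₁ := hInd ρ A₁ A₁ B₁ B₁ _ _ hdis hlA hlA hlB hlB
    _ ≤ Pr A₁ * (Pr B₁ * Pr B₁) := by
        rw [hOne ρ B₁ B₁ (ann 0 r' n) hlB hlB fun v hv => hρ v (by have := hv.1; omega)]
        exact mul_le_mul_of_nonneg_right (SM1_trivial hMono hMg hG ρ 0 m r)
          (mul_nonneg (SM1_nonneg _) (SM1_nonneg _))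
    _ = _ := by ring

theorem SM1 (hSMS : SMS_stmt) (hBLG : BLG_stmt) (hBl : Bblocks_stmt) (hOne : Bone_stmt)
    (hMg : Bmarg_stmt) (hInd : Bindep_stmt) (hMono : Bmono_stmt) (hQMX : QMX_stmt)
    (hEXR : EXR_stmt) (hQZ : QZ_stmt) (hG : GLA_stmt) (hAM : AM_stmt) : SM1_stmt := by
  classical
  obtain ⟨k₁, hk₁⟩ := hSMS
  obtain ⟨C₂, hC₂, i₂, hQ⟩ := hQMX
  obtain ⟨C₃, hC₃, i₃, hE⟩ := hEXR
  refine ⟨max k₁ (max i₂ i₃), fun k hk => ?_⟩
  have hk1 : k₁ ≤ k := (le_max_left _ _).trans hk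
  have hk2 : i₂ ≤ k := ((le_max_left _ _).trans (le_max_right _ _)).trans hk
  have hk3 : i₃ ≤ k := ((le_max_right _ _).trans (le_max_right _ _)).trans hk
  obtain ⟨c₁, i₀, M₁, hc₁, hi₀, hM₁, hS⟩ := hk₁ k hk1
  refine ⟨c₁, 2 * C₂ ^ 4 + C₃ ^ 3, i₀, M₁, hc₁, by positivity, hi₀, ?_⟩
  intro t p₀ J ht0 ht1 hp₀ hct hJ
  set F := Tw k J with hF
  set b₁ := be k (p₀ + M₁) with hb₁
  set b₃ := be k (J + 1) with hb₃
  have hb₁0 : 0 ≤ b₁ := SM1_nonneg _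
  have hb₃0 : 0 ≤ b₃ := SM1_nonneg _
  have hP0 : Profile (fun _ : V => (0 : ℝ)) := fun v => ⟨le_rfl, zero_le_one⟩
  have heven : Even ((0 : V).1 + (0 : V).2) := ⟨0, by simp⟩
  have hQ0 : 0 ≤ Q (rN t J) F F := SM1_Qnonneg _ _ _
  have hlF : Loc F (ann 0 (2 ^ k) (2 ^ (J + 1))) := SM1_two_loc hG 0 _ _
  have hprof : Profile (rN t J) := by
    intro v
    unfold rN
    split_ifs
    · exact ⟨ht0.le, ht1⟩
    · exact ⟨zero_le_one, le_rfl⟩
  by_cases hcase : p₀ + M₁ + 3 ≤ J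
  · -- blocks
    set m := 2 ^ p₀ with hm
    set M := 2 ^ M₁ with hM
    set N := 2 ^ J with hN
    have hm1 : 1 ≤ m := Nat.one_le_two_pow
    have hmN : m ≤ N := Nat.pow_le_pow_right (by norm_num) (by omega)
    have hM4 : 4 ≤ M := by
      calc 4 = 2 ^ 2 := rfl
        _ ≤ 2 ^ M₁ := Nat.pow_le_pow_right (by norm_num) (by omega)
    obtain ⟨g1, g2, -, -, -⟩ := hBLG m M N hm1 hmN hM4
    set S := bix m M N with hSdef
    let e := S.equivFin
    let B : Fin S.card → Finset V := fun i => blo m (e.symm i).1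
    have hBdis : ∀ i j, i ≠ j → Disjoint (B i) (B j) := by
      intro i j hij
      apply g1
      intro h
      exact hij (e.symm.injective (Subtype.ext h))
    have h1 := hBl (rN t J) F _ S.card B hprof hlF hBdis
    have hsumeq : ∑ i, Q (rN t J) (Piv (B i : Set V) F) (Piv (B i : Set V) F) =
        ∑ z ∈ S, Q (rN t J) (Piv (blo m z : Set V) F) (Piv (blo m z : Set V) F) := by
      rw [← Finset.sum_coe_sort S, ← e.symm.sum_comp]
    rw [hsumeq] at h1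
    have h2 := hS t p₀ J ht0 ht1 hp₀ hct hcase
    set ρ' : V → ℝ := fun v => if ∃ i, v ∈ B i then 1 else rN t J v with hρ'
    have h3 : Q (rN t J) F F ≤ 2 * Q ρ' F F := by
      have h2' : ∑ z ∈ S, Q (rN t J) (Piv (blo m z : Set V) F) (Piv (blo m z : Set V) F) ≤
        1 / 2 * Q (rN t J) F F := h2
      linarith
    have hρ1 : ∀ v, 2 ^ (p₀ + M₁) < sd 0 v → ρ' v = 1 := by
      intro v hv
      by_cases hvN : sd 0 v ≤ N
      · have hmM : m * M < sd 0 v := by rw [hm, hM, ← pow_add]; exact hv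
        obtain ⟨z, hz, hvz⟩ := g2 v hmM hvN
        have : ∃ i, v ∈ B i := ⟨e ⟨z, hz⟩, by simp only [B, Equiv.symm_apply_apply]; exact hvz⟩
        simp only [hρ', if_pos this]
      · simp only [hρ']
        split_ifs
        · rfl
        · unfold rN
          rw [if_neg hvN]
    have h4 : Q ρ' F F ≤ b₁ * Pr (Ev fun c => two c 0 (2 ^ (p₀ + M₁ + 1)) (2 ^ (J + 1))) ^ 2 :=
      SM1_full hMono hMg hOne hInd hG hAM ρ' (2 ^ k) (2 ^ (p₀ + M₁)) (2 ^ (J + 1))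
        (Nat.pow_le_pow_right (by norm_num) (by omega))
        (Nat.pow_lt_pow_right (by norm_num) (by omega))
        (Nat.pow_lt_pow_right (by norm_num) (by omega))
        (Nat.pow_le_pow_right (by norm_num) (by omega)) hρ1
    set b₂ := Pr (Ev fun c => two c 0 (2 ^ (p₀ + M₁ + 1)) (2 ^ (J + 1))) with hb₂
    have hb₂0 : 0 ≤ b₂ := SM1_nonneg _
    have h5 : b₁ * b₂ ≤ C₂ ^ 2 * b₃ := by
      have := (hQ 2 (fun _ => 0) 0 k (p₀ + M₁) 1 (J + 1) (Or.inl rfl) hP0 heven hk2 (by omega)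
        (by omega)).1
      rw [← SM1_qa hQZ, ← SM1_qa hQZ, ← SM1_qa hQZ] at this
      exact this
    have h6 : Q (rN t J) F F * b₁ ≤ 2 * (b₁ * b₂) ^ 2 := by
      calc Q (rN t J) F F * b₁ ≤ (2 * (b₁ * b₂ ^ 2)) * b₁ :=
            mul_le_mul_of_nonneg_right (h3.trans (by linarith)) hb₁0
        _ = _ := by ring
    have h7 : (b₁ * b₂) ^ 2 ≤ (C₂ ^ 2 * b₃) ^ 2 :=
      pow_le_pow_left₀ (mul_nonneg hb₁0 hb₂0) h5 2
    have h8 : 0 ≤ C₃ ^ 3 * b₃ ^ 2 := by positivity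
    calc Q (rN t J) F F * b₁ ≤ 2 * (C₂ ^ 2 * b₃) ^ 2 := h6.trans (by linarith)
      _ ≤ (2 * C₂ ^ 4 + C₃ ^ 3) * b₃ ^ 2 := by nlinarith
  · -- trivial bound
    push Not at hcase
    have h1 : Q (rN t J) F F ≤ b₃ := SM1_trivial hMono hMg hG _ _ _ _
    have h2 : b₁ ≤ C₃ ^ 3 * b₃ := by
      by_cases h3 : J + 1 ≤ p₀ + M₁
      · have h4 : b₁ ≤ b₃ := by
          have : IsProbabilityMeasure P1 := by unfold P1; infer_instance
          show be k (p₀ + M₁) ≤ be k (J + 1)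
          unfold be Pr
          exact measureReal_mono (SM1_two_mono hAM le_rfl
            (Nat.pow_le_pow_right (by norm_num) (by omega))
            (Nat.pow_le_pow_right (by norm_num) h3))
        have h5 : 1 ≤ C₃ ^ 3 := one_le_pow₀ hC₃
        nlinarith
      · obtain ⟨r, hr⟩ : ∃ r, J + 1 = p₀ + M₁ + r := ⟨J + 1 - (p₀ + M₁), by omega⟩
        have h4 := (hE 2 (fun _ => 0) 0 k (p₀ + M₁) r (Or.inl rfl) hP0 heven hk3 (by omega)).1
        rw [← SM1_qa hQZ, ← SM1_qa hQZ, ← hr] at h4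
        have h5 : C₃ ^ r ≤ C₃ ^ 3 := pow_le_pow_right₀ hC₃ (by omega)
        exact (show b₁ ≤ C₃ ^ r * b₃ from h4).trans (mul_le_mul_of_nonneg_right h5 hb₃0)
    have h8 : 0 ≤ 2 * C₂ ^ 4 * b₃ ^ 2 := by positivity
    calc Q (rN t J) F F * b₁ ≤ b₃ * (C₃ ^ 3 * b₃) :=
          mul_le_mul h1 h2 hb₁0 hb₃0
      _ ≤ (2 * C₂ ^ 4 + C₃ ^ 3) * b₃ ^ 2 := by nlinarith

end DP
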