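import Pool.Agent.helper96.DP.SpecF
import Pool.Agent.helper96.DP.Basic

namespace DP

open MeasureTheory

theorem SMB_nonneg (ρ : V → ℝ) (F G : Set (V → Bool)) : 0 ≤ Q ρ F G := measureReal_nonneg

theorem SMB_two_loc (hG : GLA_stmt) (x : V) (m n : ℕ) :
    Loc (Ev fun c => two c x m n) (ann x m n) := by
  have h := ((hG x m n).1 true).inter ((hG x m n).1 false)
  rw [Set.union_self] at h
  exact h

theorem SMB_ar (c : V → Bool) (x : V) (m n : ℕ) : ar 2 c x m n ↔ two c x m n := by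
  unfold ar
  rw [if_neg (by norm_num)]

theorem SMB_ar4 (c : V → Bool) (x : V) (m n : ℕ) : ar 4 c x m n ↔ four c x m n := by
  unfold ar
  rw [if_pos rfl]

theorem SMB_ev2 (x : V) (m n : ℕ) : (Ev fun c => ar 2 c x m n) = Ev fun c => two c x m n := by
  ext b
  exact SMB_ar (col b) x m n

theorem SMB_ev4 (x : V) (m n : ℕ) : (Ev fun c => ar 4 c x m n) = Ev fun c => four c x m n := by
  ext b
  exact SMB_ar4 (col b) x m n

theorem SMB_q2 (ρ : V → ℝ) (x : V) (m n : ℕ) :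
    qa ρ 2 x m n = Q ρ (Ev fun c => two c x m n) (Ev fun c => two c x m n) := by
  unfold qa
  rw [SMB_ev2]

theorem SMB_q4 (ρ : V → ℝ) (x : V) (m n : ℕ) :
    qa ρ 4 x m n = Q ρ (Ev fun c => four c x m n) (Ev fun c => four c x m n) := by
  unfold qa
  rw [SMB_ev4]

theorem SMB (hDEC : DEC_stmt) (hPVI : PVI_stmt) (hTRQ : TRQ_stmt) (hQMX : QMX_stmt)
    (hEXR : EXR_stmt) (hAnti : Banti_stmt) (hInd : Bindep_stmt) (hMono : Bmono_stmt)
    (hG : GLA_stmt) (hAM : AM_stmt) : SMB_stmt := by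
  classical
  obtain ⟨k₁, hk₁⟩ := hDEC
  obtain ⟨C₂, hC₂, i₂, hQ⟩ := hQMX
  obtain ⟨C₃, hC₃, i₃, hE⟩ := hEXR
  refine ⟨max k₁ (max i₂ i₃), fun k hk => ?_⟩
  have hk1 : k₁ ≤ k := (le_max_left _ _).trans hk
  have hk2 : i₂ ≤ k := ((le_max_left _ _).trans (le_max_right _ _)).trans hk
  have hk3 : i₃ ≤ k := ((le_max_right _ _).trans (le_max_right _ _)).trans hk
  obtain ⟨c₁, c₂, C, i₀, hc₁, hc₂, hC, hi₀, hD⟩ := hk₁ k hk1
  refine ⟨c₁, c₂, (C₂ ^ 4 + C₃ ^ 2) * (C * (2 : ℝ) ^ (3 * (2 + c₂))), i₀, hc₁, hc₂,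
    by positivity, hi₀, ?_⟩
  intro t p₀ J l y B ht0 ht1 hp₀ hct hy1 hy2 hB hpl hlJ hly hly2 hyJ
  have heven : Even (y.1 + y.2) := hy1.add hy2
  have heven0 : Even ((0 : V).1 + (0 : V).2) := ⟨0, by simp⟩
  have hprof : Profile (rN t J) := by
    intro v
    unfold rN
    split_ifs
    · exact ⟨ht0.le, ht1⟩
    · exact ⟨zero_le_one, le_rfl⟩
  have hproft : Profile (fun _ : V => t) := fun v => ⟨ht0.le, ht1⟩
  -- powers
  have e1 : 2 ^ l = 4 * 2 ^ (l - 2) := by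
    obtain ⟨q, rfl⟩ : ∃ q, l = q + 2 := ⟨l - 2, by omega⟩
    rw [Nat.add_sub_cancel, pow_add]; ring
  have e2 : 2 ^ (l - 1) = 2 * 2 ^ (l - 2) := by
    obtain ⟨q, rfl⟩ : ∃ q, l = q + 2 := ⟨l - 2, by omega⟩
    rw [show q + 2 - 1 = q + 1 by omega, Nat.add_sub_cancel, pow_succ]; ring
  have e3 : 2 ^ (l + 1) = 8 * 2 ^ (l - 2) := by rw [pow_succ, e1]; ring
  have e4 : 2 ^ (l + 2) = 16 * 2 ^ (l - 2) := by rw [pow_succ, e3]; ring
  have e5 : 2 ^ (p₀ + 1) ≤ 2 ^ (l - 3) := Nat.pow_le_pow_right (by norm_num) (by omega)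
  have e6 : 2 ^ (l - 2) = 2 * 2 ^ (l - 3) := by
    obtain ⟨q, rfl⟩ : ∃ q, l = q + 3 := ⟨l - 3, by omega⟩
    rw [show q + 3 - 2 = q + 1 by omega, Nat.add_sub_cancel, pow_succ]; ring
  have e7 : 2 ^ (p₀ + 1) = 2 * 2 ^ p₀ := by rw [pow_succ]; ring
  have e8 : 1 ≤ 2 ^ p₀ := Nat.one_le_two_pow
  have e9 : 2 ^ l ≤ 2 ^ J := Nat.pow_le_pow_right (by norm_num) hlJ
  have e10 : 2 ^ (J + 1) = 2 * 2 ^ J := by rw [pow_succ]; ring
  set R := 2 ^ (l - 2) with hR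
  set F := Tw k J with hF
  set A₁ : Set (V → Bool) := Ev fun c => two c 0 (2 ^ k) (2 ^ (l - 1)) with hA₁
  set A₂ : Set (V → Bool) := Ev fun c => four c y (2 ^ (p₀ + 1)) R with hA₂
  set A₃ : Set (V → Bool) := if l < J then Ev fun c => two c 0 (2 ^ (l + 2)) (2 ^ (J + 1))
    else Set.univ with hA₃
  have hnear : ∀ w, sd y w ≤ R → 2 ^ (l - 1) < sd 0 w ∧ sd 0 w < 2 ^ (l + 2) ∧
      sd 0 w < 2 ^ (J + 1) := by
    intro w hw
    have h1 := sd_triangle 0 y w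
    have h2 := sd_triangle 0 w y
    rw [sd_comm w y] at h2
    omega
  -- inclusion
  have hsub : Piv B F ⊆ (A₁ ∩ A₂) ∩ A₃ := by
    intro b hb
    have hb' : b ∈ Piv B (Ev fun c => ar 2 c 0 (2 ^ k) (2 ^ (J + 1))) := by
      rw [SMB_ev2]
      exact hb
    obtain ⟨h1, h2, h3⟩ := hPVI 2 b B 0 y (2 ^ k) (2 ^ (l - 1)) (2 ^ (l + 2)) (2 ^ (J + 1))
      (2 ^ p₀) R (Or.inl rfl) heven hB (by omega) (Nat.pow_le_pow_right (by norm_num) (by omega))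
      (Nat.pow_le_pow_right (by norm_num) (by omega)) hnear hb'
    refine ⟨⟨(SMB_ar _ _ _ _).1 h1, ?_⟩, ?_⟩
    · have h4 := hAM (col b) 4 y (2 ^ p₀ + 1) (2 ^ (p₀ + 1)) R R (Or.inr rfl) (by omega) (by omega)
        le_rfl ((SMB_ar4 _ _ _ _).2 h2)
      exact (SMB_ar4 _ _ _ _).1 h4
    · rw [hA₃]
      split_ifs with hlt
      · exact (SMB_ar _ _ _ _).1 (h3 (Nat.pow_le_pow_right (by norm_num) (by omega)))
      · trivial
  have hl1 : Loc A₁ (ann 0 (2 ^ k) (2 ^ (l - 1))) := SMB_two_loc hG _ _ _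
  have hl2 : Loc A₂ (ann y (2 ^ (p₀ + 1)) R) := (hG y (2 ^ (p₀ + 1)) R).2.1
  have hl3 : Loc A₃ (ann 0 (2 ^ (l + 2)) (2 ^ (J + 1))) := by
    rw [hA₃]
    split_ifs
    · exact SMB_two_loc hG _ _ _
    · exact Loc.univ _
  have hd1 : Disjoint (ann 0 (2 ^ k) (2 ^ (l - 1))) (ann y (2 ^ (p₀ + 1)) R) := by
    rw [Set.disjoint_left]
    intro v hv hv'
    have a1 := hv.2
    have a2 := (hnear v hv'.2).1
    omega
  have hd2 : Disjoint (ann 0 (2 ^ k) (2 ^ (l - 1)) ∪ ann y (2 ^ (p₀ + 1)) R)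
      (ann 0 (2 ^ (l + 2)) (2 ^ (J + 1))) := by
    rw [Set.disjoint_left]
    rintro v (hv | hv) hv'
    · have a1 := hv.2
      have a2 := hv'.1
      omega
    · have a1 := (hnear v hv.2).2.1
      have a2 := hv'.1
      omega
  have h1 : Q (rN t J) (Piv B F) (Piv B F) ≤
      Q (rN t J) A₁ A₁ * Q (rN t J) A₂ A₂ * Q (rN t J) A₃ A₃ := by
    refine (hMono _ _ _ _ _ hsub hsub).trans (le_of_eq ?_)
    rw [hInd (rN t J) (A₁ ∩ A₂) (A₁ ∩ A₂) A₃ A₃ _ _ hd2 (hl1.inter hl2) (hl1.inter hl2) hl3 hl3,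
      hInd (rN t J) A₁ A₁ A₂ A₂ _ _ hd1 hl1 hl1 hl2 hl2]
  -- the four arm factor
  have h2 : Q (rN t J) A₂ A₂ ≤ C * (2 : ℝ) ^ (3 * (2 + c₂)) *
      (2 : ℝ) ^ (-((2 + c₂) * ((l : ℝ) - p₀))) := by
    have a1 : Q (rN t J) A₂ A₂ ≤ Q (fun _ => t) A₂ A₂ := by
      refine hAnti (fun _ => t) (rN t J) A₂ _ hproft hprof hl2 fun v _ => ?_
      unfold rN
      split_ifs
      · exact le_rfl
      · exact ht1
    have a2 : Q (fun _ => t) A₂ A₂ = qa (fun _ => t) 4 0 (2 ^ (p₀ + 1)) R := by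
      rw [← (hTRQ t 4 y (2 ^ (p₀ + 1)) R hy1 hy2).1, SMB_q4]
    have a3 := hD t p₀ (p₀ + 1) (l - 2) ht0 ht1 hp₀ hct (by omega) (by omega)
    rw [a2] at a1
    refine a1.trans (a3.trans (le_of_eq ?_))
    rw [mul_assoc, ← Real.rpow_add (by norm_num)]
    congr 2
    rw [Nat.cast_sub (by omega : 2 ≤ l)]
    push_cast
    ring
  -- the two arm factors
  have h3 : Q (rN t J) A₁ A₁ * Q (rN t J) A₃ A₃ ≤ (C₂ ^ 4 + C₃ ^ 2) * Q (rN t J) F F := by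
    have hF0 : 0 ≤ Q (rN t J) F F := SMB_nonneg _ _ _
    by_cases hlt : l < J
    · have a1 := (hQ 2 (rN t J) 0 k (l - 1) 3 (J + 1) (Or.inl rfl) hprof heven0 hk2 (by omega)
        (by omega)).1
      rw [SMB_q2, SMB_q2, SMB_q2, show l - 1 + 3 = l + 2 by omega] at a1
      rw [hA₃, if_pos hlt]
      refine a1.trans ?_
      have : 0 ≤ C₃ ^ 2 * Q (rN t J) F F := by positivity
      have e : C₂ ^ (3 + 1) * Q (rN t J) (Ev fun c => two c 0 (2 ^ k) (2 ^ (J + 1)))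
          (Ev fun c => two c 0 (2 ^ k) (2 ^ (J + 1))) = C₂ ^ 4 * Q (rN t J) F F := rfl
      rw [e]
      linarith
    · have hlJ' : l = J := by omega
      have a1 := (hE 2 (rN t J) 0 k (l - 1) 2 (Or.inl rfl) hprof heven0 hk3 (by omega)).1
      rw [SMB_q2, SMB_q2, show l - 1 + 2 = J + 1 by omega] at a1
      have a2 : Q (rN t J) A₃ A₃ ≤ 1 := by
        have : IsProbabilityMeasure (PP (rN t J)) := by unfold PP; infer_instance
        unfold Q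
        exact measureReal_le_one
      have a3 : Q (rN t J) A₁ A₁ * Q (rN t J) A₃ A₃ ≤ Q (rN t J) A₁ A₁ :=
        mul_le_of_le_one_right (SMB_nonneg _ _ _) a2
      refine a3.trans (a1.trans ?_)
      have : 0 ≤ C₂ ^ 4 * Q (rN t J) F F := by positivity
      have e : C₃ ^ 2 * Q (rN t J) (Ev fun c => two c 0 (2 ^ k) (2 ^ (J + 1)))
          (Ev fun c => two c 0 (2 ^ k) (2 ^ (J + 1))) = C₃ ^ 2 * Q (rN t J) F F := rfl
      rw [e]
      linarith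
  have hz : 0 ≤ Q (rN t J) A₁ A₁ * Q (rN t J) A₃ A₃ :=
    mul_nonneg (SMB_nonneg _ _ _) (SMB_nonneg _ _ _)
  have hw : 0 ≤ C * (2 : ℝ) ^ (3 * (2 + c₂)) * (2 : ℝ) ^ (-((2 + c₂) * ((l : ℝ) - p₀))) := by
    positivity
  calc Q (rN t J) (Piv B F) (Piv B F)
      ≤ (Q (rN t J) A₁ A₁ * Q (rN t J) A₃ A₃) * Q (rN t J) A₂ A₂ := by
        refine h1.trans (le_of_eq (by ring))
    _ ≤ ((C₂ ^ 4 + C₃ ^ 2) * Q (rN t J) F F) *
        (C * (2 : ℝ) ^ (3 * (2 + c₂)) * (2 : ℝ) ^ (-((2 + c₂) * ((l : ℝ) - p₀)))) :=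
        mul_le_mul h3 h2 (SMB_nonneg _ _ _) (hz.trans h3)
    _ = _ := by ring

end DP
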