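import Pool.Agent.helper96.DP.SpecF
import Pool.Agent.helper95.DP.SpecH
import Pool.Agent.helper96.DP.Basic

namespace DP

open MeasureTheory

theorem SMF (h : SMW_stmt) (hAnti : Banti_stmt) (hG : GLA_stmt) : SM_stmt := by
  classical
  obtain ⟨k₀, hk₀⟩ := h
  obtain ⟨w, J₀, hw0, hwi, hw⟩ := hk₀ k₀ le_rfl
  refine ⟨2 ^ k₀, (∫ t in Set.Ioc (0 : ℝ) 1, w t) + 1, by positivity, ?_, fun K => ?_⟩
  · have : 0 ≤ ∫ t in Set.Ioc (0 : ℝ) 1, w t := integral_nonneg hw0
    linarith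
  set J := max J₀ (max K (k₀ + 1)) with hJ
  have hJ1 : J₀ ≤ J := le_max_left _ _
  have hJ2 : K ≤ J := (le_max_left _ _).trans (le_max_right _ _)
  have hJ3 : k₀ + 1 ≤ J := (le_max_right _ _).trans (le_max_right _ _)
  obtain ⟨hpos, hb⟩ := hw J hJ1
  have e2 : 2 * 2 ^ J = 2 ^ (J + 1) := by rw [pow_succ]; ring
  have eF : (Ev fun c => two c 0 (2 ^ k₀) (2 * 2 ^ J)) = Tw k₀ J := by rw [e2]; rfl
  refine ⟨2 ^ J, hJ2.trans (Nat.lt_two_pow_self).le,
    Nat.pow_lt_pow_right (by norm_num) (by omega), ?_, ?_⟩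
  · rw [eF]
    exact hpos
  · rw [eF]
    have hloc : Loc (Tw k₀ J) (ann 0 (2 ^ k₀) (2 ^ (J + 1))) := by
      have h1 := ((hG 0 (2 ^ k₀) (2 ^ (J + 1))).1 true).inter
        ((hG 0 (2 ^ k₀) (2 ^ (J + 1))).1 false)
      rw [Set.union_self] at h1
      exact h1
    set φ : ℝ → ℝ := fun t => Q (rN t J) (Tw k₀ J) (Tw k₀ J) with hφ
    have hprof : ∀ t : ℝ, 0 ≤ t → t ≤ 1 → Profile (rN t J) := by
      intro t h0 h1 v
      unfold rN
      split_ifs
      · exact ⟨h0, h1⟩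
      · exact ⟨zero_le_one, le_rfl⟩
    have hanti : AntitoneOn φ (Set.uIcc 0 1) := by
      rw [Set.uIcc_of_le zero_le_one]
      intro s hs t ht hst
      refine hAnti (rN s J) (rN t J) _ _ (hprof s hs.1 hs.2) (hprof t ht.1 ht.2) hloc fun v _ => ?_
      unfold rN
      split_ifs
      · exact hst
      · exact le_rfl
    have hint : IntervalIntegrable φ volume 0 1 := hanti.intervalIntegrable
    have hint' : IntegrableOn φ (Set.Ioc 0 1) :=
      (intervalIntegrable_iff_integrableOn_Ioc_of_le zero_le_one).1 hint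
    have h1 : (∫ t in (0 : ℝ)..1, φ t) ≤ ∫ t in Set.Ioc (0 : ℝ) 1, w t * Pr (Tw k₀ J) ^ 2 := by
      rw [intervalIntegral.integral_of_le zero_le_one]
      exact setIntegral_mono_on hint' (hwi.mul_const _) measurableSet_Ioc
        fun t ht => hb t ht.1 ht.2
    rw [integral_mul_const] at h1
    refine h1.trans ?_
    have h2 : 0 ≤ Pr (Tw k₀ J) ^ 2 := sq_nonneg _
    nlinarith

end DP
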