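import Pool.Agent.helper96.DP.SpecF
import Pool.Agent.helper96.DP.Basic

namespace DP

open MeasureTheory

theorem SMW_ev2 (x : V) (m n : ℕ) : (Ev fun c => ar 2 c x m n) = Ev fun c => two c x m n := by
  ext b
  show ar 2 (col b) x m n ↔ two (col b) x m n
  unfold ar
  rw [if_neg (by norm_num)]

theorem SMW_be (hQZ : QZ_stmt) (k i : ℕ) : be k i = qa (fun _ => 0) 2 0 (2 ^ k) (2 ^ i) := by
  rw [← hQZ 2 0 (2 ^ k) (2 ^ i), SMW_ev2]
  rfl

/-- The abstract part: an integrable majorant. -/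
theorem SMW_abs (C c₁ c q K : ℝ) (i₁ M : ℕ) (g B : ℕ → ℝ) (hC : 0 < C) (hc₁ : 0 < c₁) (hc : 0 < c)
    (hq : 1 < q) (hK : 0 < K) (hg0 : ∀ i, 0 ≤ g i) (hB : ∀ i, i₁ ≤ i → 0 < B i)
    (hB1 : ∀ i, B i ≤ 1)
    (hgB : ∀ i, i₁ ≤ i → c * q ^ i ≤ g i * B i)
    (hBK : ∀ i, i₁ ≤ i → B i ≤ K * B (i + 1 + M)) :
    ∃ w : ℝ → ℝ, (∀ t, 0 ≤ w t) ∧ IntegrableOn w (Set.Ioc (0 : ℝ) 1) ∧
      ∀ t : ℝ, 0 < t → ∃ p, i₁ ≤ p ∧ c₁ ≤ t * g p ∧ C / B (p + M) ≤ w t := by
  classical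
  have hgc : ∀ i, i₁ ≤ i → c * q ^ i ≤ g i := fun i hi =>
    (hgB i hi).trans (mul_le_of_le_one_right (hg0 i) (hB1 i))
  have hgpos : ∀ i, i₁ ≤ i → 0 < g i := fun i hi =>
    lt_of_lt_of_le (by positivity) (hgc i hi)
  set A : ℕ → ℝ := fun n => C / B (i₁ + (n + 1) + M) with hA
  set s : ℕ → ℝ := fun n => c₁ / g (i₁ + n) with hs
  have hs0 : ∀ n, 0 < s n := fun n => div_pos hc₁ (hgpos _ (by omega))
  have hA0 : ∀ n, 0 < A n := fun n => div_pos hC (hB _ (by omega))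
  have hAs : ∀ n, A n * s n ≤ (C * c₁ * K / (c * q ^ i₁)) * (q⁻¹) ^ n := by
    intro n
    set i := i₁ + n with hi
    have hii : i₁ ≤ i := by omega
    have h1 := hBK i hii
    have h2 := hgB i hii
    have e : i₁ + (n + 1) + M = i + 1 + M := by omega
    have hBi := hB i hii
    have hBi' := hB (i + 1 + M) (by omega)
    have hgi := hgpos i hii
    have h3 : A n ≤ C * K / B i := by
      simp only [hA, e]
      rw [div_le_div_iff₀ hBi' hBi]
      nlinarith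
    have h4 : A n * s n ≤ (C * K / B i) * (c₁ / g i) :=
      mul_le_mul_of_nonneg_right h3 (hs0 n).le
    refine h4.trans ?_
    have h5 : (C * K / B i) * (c₁ / g i) = (C * c₁ * K) / (g i * B i) := by
      field_simp
    have h6 : (C * c₁ * K / (c * q ^ i₁)) * (q⁻¹) ^ n = (C * c₁ * K) / (c * q ^ i) := by
      rw [hi, pow_add, inv_pow]
      field_simp
    rw [h5, h6]
    exact div_le_div_of_nonneg_left (by positivity) (by positivity) h2
  have hsum : Summable fun n => A n * s n := by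
    refine Summable.of_nonneg_of_le (fun n => (mul_pos (hA0 n) (hs0 n)).le) hAs ?_
    exact (summable_geometric_of_lt_one (by positivity) (inv_lt_one_of_one_lt₀ hq)).mul_left _
  set u : ℝ → ENNReal := fun t => ENNReal.ofReal (C / B (i₁ + M)) +
    ∑' n, (Set.Ioo 0 (s n)).indicator (fun _ => ENNReal.ofReal (A n)) t with hu
  have hum : Measurable u :=
    measurable_const.add (Measurable.ennreal_tsum fun n => measurable_const.indicator measurableSet_Ioo)
  have hfin : ∫⁻ t in Set.Ioc (0 : ℝ) 1, u t ≠ ⊤ := by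
    have h1 : ∫⁻ t in Set.Ioc (0 : ℝ) 1, u t ≤ ENNReal.ofReal (C / B (i₁ + M)) +
        ∑' n, ENNReal.ofReal (A n * s n) := by
      rw [hu, lintegral_add_left measurable_const, lintegral_tsum
        (fun n => (measurable_const.indicator measurableSet_Ioo).aemeasurable)]
      refine add_le_add ?_ (ENNReal.tsum_le_tsum fun n => ?_)
      · rw [lintegral_const]
        simp
      · rw [lintegral_indicator_const measurableSet_Ioo, ENNReal.ofReal_mul (hA0 n).le]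
        refine mul_le_mul_right ?_ _
        refine (Measure.restrict_apply_le _ _).trans ?_
        rw [Real.volume_Ioo, sub_zero]
    refine ne_top_of_le_ne_top ?_ h1
    exact ENNReal.add_ne_top.2 ⟨ENNReal.ofReal_ne_top, hsum.tsum_ofReal_ne_top⟩
  -- eventually `c₁ ≤ t * g`
  have hev : ∀ t : ℝ, 0 < t → ∃ N, ∀ n, N ≤ n → c₁ ≤ t * g (i₁ + n) := by
    intro t ht
    obtain ⟨N, hN⟩ := (tendsto_pow_atTop_atTop_of_one_lt hq).eventually_ge_atTop (c₁ / (t * c))
      |>.exists_forall_of_atTop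
    refine ⟨N, fun n hn => ?_⟩
    have h1 := hN (i₁ + n) (by omega)
    have h2 := hgc (i₁ + n) (by omega)
    rw [div_le_iff₀ (by positivity)] at h1
    calc c₁ ≤ q ^ (i₁ + n) * (t * c) := h1
      _ = t * (c * q ^ (i₁ + n)) := by ring
      _ ≤ t * g (i₁ + n) := mul_le_mul_of_nonneg_left h2 ht.le
  have hufin : ∀ t : ℝ, 0 < t → u t ≠ ⊤ := by
    intro t ht
    obtain ⟨N, hN⟩ := hev t ht
    have h1 : ∑' n, (Set.Ioo 0 (s n)).indicator (fun _ => ENNReal.ofReal (A n)) t =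
        ∑ n ∈ Finset.range N, (Set.Ioo 0 (s n)).indicator (fun _ => ENNReal.ofReal (A n)) t := by
      refine tsum_eq_sum fun n hn => ?_
      rw [Finset.mem_range, not_lt] at hn
      refine Set.indicator_of_notMem ?_ _
      rintro ⟨-, h2⟩
      have h3 := hN n hn
      have h4 : t * g (i₁ + n) < c₁ := by
        simp only [hs] at h2
        rwa [lt_div_iff₀ (hgpos _ (by omega))] at h2
      linarith
    rw [hu]
    refine ENNReal.add_ne_top.2 ⟨ENNReal.ofReal_ne_top, ?_⟩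
    rw [h1]
    refine (ENNReal.sum_lt_top.2 fun n _ => ?_).ne
    refine lt_of_le_of_lt (Set.indicator_le_self' (fun _ _ => zero_le) _) ENNReal.ofReal_lt_top
  refine ⟨fun t => (u t).toReal, fun t => ENNReal.toReal_nonneg,
    integrable_toReal_of_lintegral_ne_top hum.aemeasurable hfin, ?_⟩
  intro t ht
  have hex : ∃ n, c₁ ≤ t * g (i₁ + n) := by
    obtain ⟨N, hN⟩ := hev t ht
    exact ⟨N, hN N le_rfl⟩
  set n₀ := Nat.find hex with hn₀
  have hspec : c₁ ≤ t * g (i₁ + n₀) := Nat.find_spec hex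
  refine ⟨i₁ + n₀, by omega, hspec, ?_⟩
  rcases Nat.eq_zero_or_pos n₀ with h0 | h0
  · rw [h0, add_zero]
    rw [← ENNReal.ofReal_le_iff_le_toReal (hufin t ht)]
    exact le_self_add
  · obtain ⟨n, hn⟩ := Nat.exists_eq_succ_of_ne_zero h0.ne'
    have hmin : ¬ c₁ ≤ t * g (i₁ + n) := Nat.find_min hex (by rw [← hn₀, hn]; exact Nat.lt_succ_self n)
    push Not at hmin
    have hts : t < s n := by
      simp only [hs]
      rwa [lt_div_iff₀ (hgpos _ (by omega))]
    rw [hn, ← ENNReal.ofReal_le_iff_le_toReal (hufin t ht)]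
    have h2 : (Set.Ioo 0 (s n)).indicator (fun _ => ENNReal.ofReal (A n)) t =
        ENNReal.ofReal (A n) := Set.indicator_of_mem (show t ∈ Set.Ioo 0 (s n) from ⟨ht, hts⟩) _
    calc ENNReal.ofReal (C / B (i₁ + (n + 1) + M)) = ENNReal.ofReal (A n) := rfl
      _ = (Set.Ioo 0 (s n)).indicator (fun _ => ENNReal.ofReal (A n)) t := h2.symm
      _ ≤ ∑' n, (Set.Ioo 0 (s n)).indicator (fun _ => ENNReal.ofReal (A n)) t :=
          ENNReal.le_tsum n
      _ ≤ u t := le_add_self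

theorem SMW (hSM1 : SM1_stmt) (hKEY : KEY_stmt) (hEXR : EXR_stmt) (hQZ : QZ_stmt) : SMW_stmt := by
  classical
  obtain ⟨k₁, hk₁⟩ := hSM1
  obtain ⟨k₂, hk₂⟩ := hKEY
  obtain ⟨C₃, hC₃, i₃, hE⟩ := hEXR
  refine ⟨max k₁ (max k₂ i₃), fun k hk => ?_⟩
  have hk1 : k₁ ≤ k := (le_max_left _ _).trans hk
  have hk2 : k₂ ≤ k := ((le_max_left _ _).trans (le_max_right _ _)).trans hk
  have hk3 : i₃ ≤ k := ((le_max_right _ _).trans (le_max_right _ _)).trans hk
  obtain ⟨c₁, C, i₀, M₁, hc₁, hC, hi₀, hS⟩ := hk₁ k hk1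
  obtain ⟨c, ε, i₀', hc, hε, hKy⟩ := hk₂ k hk2
  have hP0 : Profile (fun _ : V => (0 : ℝ)) := fun v => ⟨le_rfl, zero_le_one⟩
  have heven : Even ((0 : V).1 + (0 : V).2) := ⟨0, by simp⟩
  have hbpos : ∀ i, k < i → 0 < be k i := by
    intro i hi
    rw [SMW_be hQZ]
    exact (hE 2 (fun _ => 0) 0 k i 0 (Or.inl rfl) hP0 heven hk3 hi).2.2
  have hb1 : ∀ i, be k i ≤ 1 := by
    intro i
    have : IsProbabilityMeasure P1 := by unfold P1; infer_instance
    unfold be Pr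
    exact measureReal_le_one
  have hal0 : ∀ i, 0 ≤ al k i := fun i => measureReal_nonneg
  set i₁ := max i₀ i₀' with hi₁
  have hi1 : i₀ ≤ i₁ := le_max_left _ _
  have hi1' : i₀' ≤ i₁ := le_max_right _ _
  have hq : (1 : ℝ) < (2 : ℝ) ^ ε := Real.one_lt_rpow (by norm_num) hε
  obtain ⟨w, hw0, hwi, hw⟩ := SMW_abs C c₁ c ((2 : ℝ) ^ ε) (C₃ ^ (M₁ + 1)) i₁ M₁
    (fun i => 4 ^ i * al k i) (be k) hC hc₁ hc hq (by positivity)
    (fun i => mul_nonneg (by positivity) (hal0 i)) (fun i hi => hbpos i (by omega)) hb1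
    (fun i hi => by
      have h1 := hKy i (by omega)
      rwa [Real.rpow_mul (by norm_num), Real.rpow_natCast] at h1)
    (fun i hi => by
      have h1 := (hE 2 (fun _ => 0) 0 k i (M₁ + 1) (Or.inl rfl) hP0 heven hk3 (by omega)).1
      rw [← SMW_be hQZ, ← SMW_be hQZ] at h1
      rwa [show i + 1 + M₁ = i + (M₁ + 1) by omega])
  refine ⟨w, k + 4, hw0, hwi, fun J hJ => ⟨hbpos (J + 1) (by omega), ?_⟩⟩
  intro t ht0 ht1
  obtain ⟨p, hp1, hp2, hp3⟩ := hw t ht0
  have h1 := hS t p J ht0 ht1 (by omega) hp2 (by omega)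
  have hbp := hbpos (p + M₁) (by omega)
  have h2 : Q (rN t J) (Tw k J) (Tw k J) ≤ C / be k (p + M₁) * be k (J + 1) ^ 2 := by
    rw [div_mul_eq_mul_div, le_div_iff₀ hbp]
    exact h1
  exact h2.trans (mul_le_mul_of_nonneg_right hp3 (sq_nonneg _))

end DP
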